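import Pool.Agent.H41.SE.TabT

/-!
# MP_eaeaf5_lc, part W (definability): decision lemmas for a context with a correct table
-/

set_option linter.unusedVariables false

open Ordinal Order Set
open scoped ZFSet

namespace SE

open SF

variable {D : Cx} {ρ : V} {X Y : V → Prop}

/-- a decided property as a decided relation; the parameter is the decision set -/
theorem dcd_set (hF : Dfn) (hD : D.Ok) {C : V → (ℕ → V) → Prop} :
    D.Dcd C (fun ρ u G => ∃ p ∈ G, p ∈ u 0) :=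
  ⟨fun _ w => w 0 ∈ w 4, Dfb.mem (Tm.var 0) (Tm.var 4), fun _ _ _ _ _ _ _ _ => Iff.rfl⟩

theorem dcd_set1 (hF : Dfn) (hD : D.Ok) {C : V → (ℕ → V) → Prop} :
    D.Dcd C (fun ρ u G => ∃ p ∈ G, p ∈ u 1) :=
  ⟨fun _ w => w 0 ∈ w 5, Dfb.mem (Tm.var 0) (Tm.var 5), fun _ _ _ _ _ _ _ _ => Iff.rfl⟩

theorem dec_congr (h : D.Dec ρ X) (h' : ∀ G, D.Gn ρ G → (X G ↔ Y G)) : D.Dec ρ Y := by
  obtain ⟨O, hO, h2⟩ := h
  exact ⟨O, hO, fun G hG => (h' G hG).symm.trans (h2 G hG)⟩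

theorem dec_not (hF : Dfn) (hB : Frc) (hD : D.Ok) (hρ : ρ ∈ D.H) (hc : Cld D.L ρ)
    (h : D.Dec ρ X) : D.Dec ρ (fun G => ¬ X G) := by
  obtain ⟨O, hO, h2⟩ := h
  exact dec_congr (((dcd_set (C := fun _ _ => True) hF hD).not hF hB hD).dec hF hD hρ hc
    (u := fun _ => O) (fun _ => hO) trivial) fun G hG => not_congr (h2 G hG).symm

theorem dec_and (hF : Dfn) (hB : Frc) (hD : D.Ok) (hρ : ρ ∈ D.H) (hc : Cld D.L ρ)
    (h : D.Dec ρ X) (h' : D.Dec ρ Y) : D.Dec ρ (fun G => X G ∧ Y G) := by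
  obtain ⟨O, hO, h2⟩ := h
  obtain ⟨O', hO', h2'⟩ := h'
  exact dec_congr (((dcd_set (C := fun _ _ => True) hF hD).and hF hD (dcd_set1 hF hD)).dec hF hD
    hρ hc (u := cons O fun _ => O') (In.cons (fun _ => hO') hO) trivial)
    fun G hG => and_congr (h2 G hG).symm (h2' G hG).symm

theorem dec_or (hF : Dfn) (hB : Frc) (hD : D.Ok) (hρ : ρ ∈ D.H) (hc : Cld D.L ρ)
    (h : D.Dec ρ X) (h' : D.Dec ρ Y) : D.Dec ρ (fun G => X G ∨ Y G) :=
  dec_congr (dec_not hF hB hD hρ hc (dec_and hF hB hD hρ hc (dec_not hF hB hD hρ hc h)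
    (dec_not hF hB hD hρ hc h'))) fun G _ => by tauto

theorem dec_imp (hF : Dfn) (hB : Frc) (hD : D.Ok) (hρ : ρ ∈ D.H) (hc : Cld D.L ρ)
    (h : D.Dec ρ X) (h' : D.Dec ρ Y) : D.Dec ρ (fun G => X G → Y G) :=
  dec_congr (dec_not hF hB hD hρ hc (dec_and hF hB hD hρ hc h (dec_not hF hB hD hρ hc h')))
    fun G _ => by tauto

theorem dec_iff (hF : Dfn) (hB : Frc) (hD : D.Ok) (hρ : ρ ∈ D.H) (hc : Cld D.L ρ)
    (h : D.Dec ρ X) (h' : D.Dec ρ Y) : D.Dec ρ (fun G => X G ↔ Y G) :=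
  dec_congr (dec_and hF hB hD hρ hc (dec_imp hF hB hD hρ hc h h') (dec_imp hF hB hD hρ hc h' h))
    fun G _ => by tauto

/-- definable relations of the extension -/
theorem dec_base (hF : Dfn) (hB : Frc) (hDS : CAA.T_DS) (hD : D.Ok) (hρ : ρ ∈ D.H)
    (hc : Cld D.L ρ) {S : (V → Prop) → (ℕ → V) → Prop} (hS : Dfb ZFm S) {u : ℕ → V}
    (hu : In D.N u) : D.Dec ρ (fun G => S (D.W G) (cons G (D.ar ρ u))) :=
  (dcd_base (C := fun _ _ => True) hF hB hDS hD hS).dec hF hD hρ hc hu trivial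

theorem dec_sec (hF : Dfn) (hB : Frc) (hDS : CAA.T_DS) (hD : D.Ok) (hρ : ρ ∈ D.H)
    (hc : Cld D.L ρ) {A B : (ℕ → V) → V} (hA : Tm ZFm (fun _ v => A v))
    (hB' : Tm ZFm (fun _ v => B v)) {u : ℕ → V} (hu : In D.N u) :
    D.Dec ρ (fun G => D.Sec ρ G (A (cons G (D.ar ρ u))) (B (cons G (D.ar ρ u)))) :=
  (dcd_sec (C := fun _ _ => True) hF hB hDS hD hA hB').dec hF hD hρ hc hu trivial

theorem dec_secS (hF : Dfn) (hB : Frc) (hDS : CAA.T_DS) (hD : D.Ok) (hρ : ρ ∈ D.H)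
    (hc : Cld D.L ρ) {A B : (ℕ → V) → V} (hA : Tm ZFm (fun _ v => A v))
    (hB' : Tm ZFm (fun _ v => B v)) {u : ℕ → V} (hu : In D.N u) :
    D.Dec ρ (fun G => D.SecS ρ G (A (cons G (D.ar ρ u))) (B (cons G (D.ar ρ u)))) :=
  (dcd_secS (C := fun _ _ => True) hF hB hDS hD hA hB').dec hF hD hρ hc hu trivial

theorem dec_cl (hF : Dfn) (hB : Frc) (hDS : CAA.T_DS) (hD : D.Ok) (hT : D.Tab) (hρ : ρ ∈ D.H)
    (hc : Cld D.L ρ) {s : V} (hs : s ∈ D.H) : D.Dec ρ (fun G => D.Cl s ρ G) := by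
  refine dec_congr ((dcd_cl (C := fun _ _ => True) hF hB hDS hD (t := fun v => v 4)
    (s := fun v => v 5) (Tm.var 4) (Tm.var 5)).dec hF hD hρ hc
    (u := cons (resS s D.T) fun _ => s) (In.cons (fun _ => hD.nH hs) (hT.tN s hs)) trivial)
    fun G hG => ?_
  exact cl_congr (D := D.tb (resS s D.T)) (D' := D) fun k hk => app_resS hk

theorem dec_side (hF : Dfn) (hB : Frc) (hDS : CAA.T_DS) (hD : D.Ok) (hT : D.Tab) (hρ : ρ ∈ D.H)
    (hc : Cld D.L ρ) {k : V} (hk : k ∈ ρ) {B : (ℕ → V) → V} (hB' : Tm ZFm (fun _ v => B v))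
    {u : ℕ → V} (hu : In D.N u) :
    D.Dec ρ (fun G => D.Side k ρ G (B (cons G (D.ar ρ u)))) := by
  have h0 := dcd_side (C := fun _ _ => True) hF hB hDS hD (T := fun v => v 3) (K := fun v => v 4)
    (B := fun v => B (cons (v 0) (cons (v 1) (cons (v 2) (cons (v 3) fun i => v (i + 6))))))
    (Tm.var 3) (Tm.var 4) ((hB'.rn (fun i => match i with
      | 0 => 0
      | 1 => 1
      | 2 => 2
      | 3 => 3
      | i + 4 => i + 6)).congr fun M k v hv => by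
        congr 1
        funext i
        match i with
        | 0 => rfl
        | 1 => rfl
        | 2 => rfl
        | 3 => rfl
        | i + 4 => rfl)
  have hlk := (cl_lS hF hD hρ hc hk).1
  refine dec_congr (h0.dec hF hD hρ hc (u := cons (resS (lS k) D.T) (cons k u))
    (In.cons (In.cons hu (hD.zfm.trans _ (hD.nH hρ) k hk)) (hT.tN _ hlk)) trivial) fun G hG => ?_
  exact side_congr (D := D.tb (resS (lS k) D.T)) (D' := D) rfl rfl rfl fun j hj => app_resS hj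

theorem dec_unk (hF : Dfn) (hB : Frc) (hDS : CAA.T_DS) (hD : D.Ok) (hT : D.Tab) (hρ : ρ ∈ D.H)
    (hc : Cld D.L ρ) {k : V} (hk : k ∈ ρ) : D.Dec ρ (D.Unk k) := by
  have h0 := dcd_unk (C := fun ρ' u => ρ' = ρ ∧ u 1 = k) hF hB hDS hD (T := fun v => v 3)
    (K := fun v => v 4) (Tm.var 3) (Tm.var 4) (by
      rintro ρ' u _ _ _ ⟨rfl, h2⟩
      show u 1 ∈ ρ'
      rw [h2]; exact hk)
  refine dec_congr (h0.dec hF hD hρ hc (u := cons (resS (lS k) D.T) fun _ => k)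
    (In.cons (fun _ => hD.zfm.trans _ (hD.nH hρ) k hk) (hT.tN _ (cl_lS hF hD hρ hc hk).1))
    ⟨rfl, rfl⟩) fun G hG => ?_
  exact unk_congr (D := D.tb (resS (lS k) D.T)) (D' := D) rfl rfl rfl fun j hj => app_resS hj

theorem dec_beta (hF : Dfn) (hB : Frc) (hDS : CAA.T_DS) (hD : D.Ok) (hT : D.Tab) (hρ : ρ ∈ D.H)
    (hc : Cld D.L ρ) {k : V} (hk : k ∈ ρ) : D.Dec ρ (D.Beta k) := by
  have h0 := dcd_beta (C := fun ρ' u => ρ' = ρ ∧ u 1 = k) hF hB hDS hD (T := fun v => v 3)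
    (K := fun v => v 4) (Tm.var 3) (Tm.var 4) (by
      rintro ρ' u _ _ _ ⟨rfl, h2⟩
      show u 1 ∈ ρ'
      rw [h2]; exact hk)
  refine dec_congr (h0.dec hF hD hρ hc (u := cons (resS (lS k) D.T) fun _ => k)
    (In.cons (fun _ => hD.zfm.trans _ (hD.nH hρ) k hk) (hT.tN _ (cl_lS hF hD hρ hc hk).1))
    ⟨rfl, rfl⟩) fun G hG => ?_
  exact beta_congr (D := D.tb (resS (lS k) D.T)) (D' := D) rfl rfl rfl fun j hj => app_resS hj

/-- the rule of `k` for a label whose support is `lS i` -/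
theorem dec_ob (hF : Dfn) (hD : D.Ok) (hT : D.Tab) {i k : V} (hi : i ∈ D.H) (hl : Lab D.L i)
    (hc : Cld D.L (lS i)) (hk : k ∈ lS i) : D.Dec (lS i) (D.Ob k i) := by
  have hlS : lS i ∈ D.H := hF.lS.1 _ hD.zfH (fun _ => i) fun _ => hi
  have hkN : D.N k := hD.zfm.trans _ (hD.nH hlS) k hk
  have hTk : D.N (D.T k) := by
    have h := (Tm.app (Tm.var 0) (Tm.var 1)).1 D.N hD.zfm (cons (resS (lS i) D.T) fun _ => k)
      (In.cons (fun _ => hkN) (hT.tN _ hlS))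
    have e : app (resS (lS i) D.T) k = D.T k := app_resS hk
    rw [← e]
    exact h
  have hO := (Tm.sep (f := fun _ w => Pos (w 0) (lS (w 1))) (R := fun _ w =>
    ZFSet.pair (w 2) (w 0) ∈ w 3) (Dfb.pairMem (Tm.var 2) (Tm.var 0) (Tm.var 3))
    (Tm.at2 (F := fun _ x y => Pos x y) hF.pos (Tm.var 0)
      (Tm.at1 (F := fun _ x => lS x) hF.lS (Tm.var 1)))).1 D.N hD.zfm
    (cons D.L (cons i (cons (D.T k) fun _ => i)))
    (In.cons (In.cons (In.cons (fun _ => hD.nH hi) hTk) (hD.nH hi)) hD.nL)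
  refine ⟨_, hO, fun G hG => ?_⟩
  rw [← hT.ob k i G hi hl hc hk hG]
  refine exists_congr fun p => and_congr_right fun hp => ?_
  rw [ZFSet.mem_sep]
  exact ⟨fun h => ⟨gn_sub hG hp, h⟩, fun h => h.2⟩

end SE
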