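import Pool.Agent.H38.SE.TarZ
import Pool.Agent.H41.SE.DecT

/-!
# MP_eaeaf5_lc, part W (definability): the targets WZ and WD
-/

set_option linter.unusedVariables false

open Ordinal Order Set
open scoped ZFSet

namespace SE

open SF

theorem dfn_of (hAI : T_AI) (hBBa : T_BBa) (hBBb : T_BBb) : Dfn := by
  obtain ⟨a1, a2, a3, a4, a5, a6, a7, a8⟩ := hAI
  obtain ⟨b1, b2, b3, b4, b5, b6, b7, b8, b9, b10, b11, b12, b13, b14, b15⟩ := hBBa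
  obtain ⟨c1, c2, c3, c4, c5, c6, c7, c8, c9, c10⟩ := hBBb
  exact ⟨a1, a3, a4, a6, b1, b12, b13, b14, c2, c3, b3, b5, b6, b7, b8, b9, c5, c6, c7, c8⟩

theorem dm_sub_of_pos {L ρ p : V} (h : p ∈ Pos L ρ) : dm p ⊆ ρ := by
  unfold Pos at h
  rw [ZFSet.mem_sep] at h
  have h2 := h.1
  unfold Fs at h2
  rw [ZFSet.mem_sep, ZFSet.mem_powerset] at h2
  intro x hx
  obtain ⟨y, hy⟩ := mem_dm.1 hx
  exact (ZFSet.pair_mem_prod.1 (h2.1 hy)).1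

theorem frc_of (hBD : T_BD) (hBJ : T_BJ) (hBL : T_BL) (hBM : T_BM) : Frc := by
  obtain ⟨b1, b2, b3, b4, b5, b6, b7, b8⟩ := hBD
  refine ⟨fun L ρ _ => b8 L ρ, ?_, ?_, ?_, ?_, ?_⟩
  · intro L ρ s p _ hs _ hp
    exact b3 L ρ s p hp fun i hi _ => (hs i hi).2
  · intro L ρ s p _ hs hsρ
    constructor
    · intro h
      have h1 := dm_sub_of_pos h
      exact ⟨b2 L s ρ p h (h1.trans hsρ), h1⟩
    · rintro ⟨h, h1⟩
      exact b2 L ρ s p h h1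
  · intro D hD ρ s G hSt hs hcs hsρ
    exact ((hBL D hD ρ G (hD.nH hSt.h) hSt.c hSt.g).2 s (hD.nH hs) hsρ
      fun i hi => (hcs i hi).2).1
  · intro D hD s G ρ p hSt hρ hc hsρ hp hpG
    obtain ⟨G', h1, h2, h3⟩ := hBM D hD s ρ G p (hD.nH hSt.h) (hD.nH hρ) hc hsρ
      (fun i hi => (hSt.c i hi).2) hSt.g hp hpG
    exact ⟨G', ⟨⟨hρ, hc, h1⟩, hsρ, h3⟩, h2⟩
  · intro D hD ρ p hρ hc hp
    exact ((hBJ D hD).2.2.2.2 ρ (hD.nH hρ) hc).1 p hp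

/-- WZ -/
theorem pf_WZ (hAI : T_AI) (hBBa : T_BBa) (hBBb : T_BBb) (hBD : T_BD) (hBJ : T_BJ) (hBL : T_BL)
    (hBM : T_BM) (hDS : CAA.T_DS) : T_WZ := by
  intro D hD
  obtain ⟨T, h1, h2⟩ := exT (dfn_of hAI hBBa hBBb) (frc_of hBD hBJ hBL hBM) hDS hD
  exact ⟨T, hD.wT T, h1, h2⟩

variable {D : Cx} {ρ : V}

theorem wd_sec (hF : Dfn) (hB : Frc) (hDS : CAA.T_DS) (hD : D.Ok) (hρ : ρ ∈ D.H)
    (hc : Cld D.L ρ) {A X : V} (hA : D.N A) (hX : D.N X) :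
    D.Dec ρ (fun G => D.Sec ρ G (ev G A) (ev G X)) := by
  have h := dec_sec hF hB hDS hD hρ hc (A := fun v => ev (v 0) (v 4)) (B := fun v => ev (v 0) (v 5))
    (Tm.at2 (F := fun _ x y => ev x y) hF.ev (Tm.var 0) (Tm.var 4))
    (Tm.at2 (F := fun _ x y => ev x y) hF.ev (Tm.var 0) (Tm.var 5))
    (u := cons A fun _ => X) (In.cons (fun _ => hX) hA)
  exact h

theorem wd_secS (hF : Dfn) (hB : Frc) (hDS : CAA.T_DS) (hD : D.Ok) (hρ : ρ ∈ D.H)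
    (hc : Cld D.L ρ) {A X : V} (hA : D.N A) (hX : D.N X) :
    D.Dec ρ (fun G => D.SecS ρ G (ev G A) (ev G X)) := by
  have h := dec_secS hF hB hDS hD hρ hc (A := fun v => ev (v 0) (v 4)) (B := fun v => ev (v 0) (v 5))
    (Tm.at2 (F := fun _ x y => ev x y) hF.ev (Tm.var 0) (Tm.var 4))
    (Tm.at2 (F := fun _ x y => ev x y) hF.ev (Tm.var 0) (Tm.var 5))
    (u := cons A fun _ => X) (In.cons (fun _ => hX) hA)
  exact h

theorem wd_p3 (hF : Dfn) (hB : Frc) (hDS : CAA.T_DS) (hD : D.Ok) (hρ : ρ ∈ D.H)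
    (hc : Cld D.L ρ) {A X : V} (hA : D.N A) (hX : D.N X) :
    D.Dec ρ (fun G => P3 (D.W G) (ev G A) (ev G X)) := by
  have h := dec_base hF hB hDS hD hρ hc (S := fun M v => P3 M (ev (v 0) (v 4)) (ev (v 0) (v 5)))
    (Dfb.at2 (P := fun M x y => P3 M x y) hF.p3
      (Tm.at2 (F := fun _ x y => ev x y) hF.ev (Tm.var 0) (Tm.var 4))
      (Tm.at2 (F := fun _ x y => ev x y) hF.ev (Tm.var 0) (Tm.var 5)))
    (u := cons A fun _ => X) (In.cons (fun _ => hX) hA)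
  exact h

theorem wd_resp (hF : Dfn) (hB : Frc) (hDS : CAA.T_DS) (hR : Dfb ZFm (fun _ v => Resp (v 0) (v 1) (v 2)))
    (hD : D.Ok) (hρ : ρ ∈ D.H) (hc : Cld D.L ρ) {s : V} (hs : D.N s) :
    D.Dec ρ (fun G => Resp s ρ G) := by
  have h := dec_base hF hB hDS hD hρ hc (S := fun _ v => Resp (v 4) (v 1) (v 0))
    (Dfb.at3 (P := fun _ x y z => Resp x y z) hR (Tm.var 4) (Tm.var 1) (Tm.var 0))
    (u := fun _ => s) (fun _ => hs)
  exact h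

theorem wd_side (hF : Dfn) (hB : Frc) (hDS : CAA.T_DS) (hD : D.Ok) (hT : D.Tab) (hρ : ρ ∈ D.H)
    (hc : Cld D.L ρ) {k : V} (hk : k ∈ ρ) {X : V} (hX : D.N X) :
    D.Dec ρ (fun G => D.Side k ρ G (ev G X)) := by
  have h := dec_side hF hB hDS hD hT hρ hc hk (B := fun v => ev (v 0) (v 4))
    (Tm.at2 (F := fun _ x y => ev x y) hF.ev (Tm.var 0) (Tm.var 4)) (u := fun _ => X) (fun _ => hX)
  exact h

/-- WD -/
theorem pf_WD (hAI : T_AI) (hBBa : T_BBa) (hBBb : T_BBb) (hBD : T_BD) (hBJ : T_BJ) (hBL : T_BL)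
    (hBM : T_BM) (hDS : CAA.T_DS) : T_WD := by
  have hF := dfn_of hAI hBBa hBBb
  have hB := frc_of hBD hBJ hBL hBM
  have hR : Dfb ZFm (fun _ v => Resp (v 0) (v 1) (v 2)) := hBBb.2.2.2.2.2.2.2.2.1
  intro D hD hT ρ hρ hc
  refine ⟨fun s hs _ => dec_cl hF hB hDS hD hT hρ hc hs,
    fun s hs _ => wd_resp hF hB hDS hR hD hρ hc hs, ?_, ?_, ?_⟩
  · intro A X hA hX _ _
    exact ⟨wd_sec hF hB hDS hD hρ hc hA hX, wd_secS hF hB hDS hD hρ hc hA hX,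
      wd_p3 hF hB hDS hD hρ hc hA hX⟩
  · intro k hk X hX _
    exact wd_side hF hB hDS hD hT hρ hc hk hX
  · intro k hk
    exact ⟨dec_beta hF hB hDS hD hT hρ hc hk, dec_unk hF hB hDS hD hT hρ hc hk⟩

end SE
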