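import Pool.Agent.H41.SE.Dec

/-!
# MP_eaeaf5_lc, part W (definability): `Sec`, `SecS`, `Cl`, `Side`, `Unk`, `Beta`, `Ob` are decided
-/

set_option linter.unusedVariables false

open Ordinal Order Set
open scoped ZFSet

namespace SE

open SF

variable {D : Cx} {C C' : V → (ℕ → V) → Prop} {X Y : V → (ℕ → V) → V → Prop}

/-- the context with the table `t` -/
noncomputable def Cx.tb (D : Cx) (t : V) : Cx := {D with T := fun k => app t k}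

theorem st_congr {D D' : Cx} (hN : D.N = D'.N) (hH : D.H = D'.H) (hL : D.L = D'.L) {ρ G : V} :
    D.St ρ G ↔ D'.St ρ G := by
  constructor
  · rintro ⟨a, b, c⟩
    exact ⟨hH ▸ a, hL ▸ b, by unfold Cx.Gn at *; rw [← hN, ← hL]; exact c⟩
  · rintro ⟨a, b, c⟩
    exact ⟨hH ▸ a, hL ▸ b, by unfold Cx.Gn at *; rw [hN, hL]; exact c⟩

theorem ex_congr {D D' : Cx} (hN : D.N = D'.N) (hH : D.H = D'.H) (hL : D.L = D'.L)
    {ρ G ρ' G' : V} : D.Ex ρ G ρ' G' ↔ D'.Ex ρ G ρ' G' := by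
  constructor
  · rintro ⟨a, b, c⟩
    exact ⟨(st_congr hN hH hL).1 a, b, c⟩
  · rintro ⟨a, b, c⟩
    exact ⟨(st_congr hN hH hL).2 a, b, c⟩

theorem sec_congr {D D' : Cx} (hN : D.N = D'.N) (hH : D.H = D'.H) (hL : D.L = D'.L)
    {ρ G a x : V} : D.Sec ρ G a x ↔ D'.Sec ρ G a x := by
  unfold Cx.Sec Cx.W
  rw [hN]
  exact forall_congr' fun ρ' => forall_congr' fun G' => imp_congr_left (ex_congr hN hH hL)

theorem secS_congr {D D' : Cx} (hN : D.N = D'.N) (hH : D.H = D'.H) (hL : D.L = D'.L)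
    {ρ G a x : V} : D.SecS ρ G a x ↔ D'.SecS ρ G a x := by
  unfold Cx.SecS
  refine exists_congr fun v => ?_
  rw [sec_congr hN hH hL]
  unfold Cx.W
  rw [hN]

theorem cl_congr {D D' : Cx} {s ρ G : V} (h : ∀ k ∈ s, D.T k = D'.T k) :
    D.Cl s ρ G ↔ D'.Cl s ρ G := by
  constructor
  · rintro ⟨a, b⟩
    exact ⟨a, fun k hk i hi hki => h k hk ▸ b k hk i hi hki⟩
  · rintro ⟨a, b⟩
    exact ⟨a, fun k hk i hi hki => (h k hk).symm ▸ b k hk i hi hki⟩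

theorem side_congr {D D' : Cx} (hN : D.N = D'.N) (hH : D.H = D'.H) (hL : D.L = D'.L)
    {k ρ G y : V} (h : ∀ j ∈ lS k, D.T j = D'.T j) : D.Side k ρ G y ↔ D'.Side k ρ G y := by
  unfold Cx.Side
  refine exists_congr fun ρ' => exists_congr fun G' => ?_
  rw [ex_congr hN hH hL, cl_congr h, secS_congr hN hH hL]

theorem unk_congr {D D' : Cx} (hN : D.N = D'.N) (hH : D.H = D'.H) (hL : D.L = D'.L)
    {k G : V} (h : ∀ j ∈ lS k, D.T j = D'.T j) : D.Unk k G ↔ D'.Unk k G := by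
  unfold Cx.Unk
  refine not_congr (exists_congr fun ρ' => exists_congr fun G' => exists_congr fun y => ?_)
  rw [ex_congr hN hH hL, cl_congr h, secS_congr hN hH hL, secS_congr hN hH hL]
  unfold Cx.W
  rw [hN]

theorem beta_congr {D D' : Cx} (hN : D.N = D'.N) (hH : D.H = D'.H) (hL : D.L = D'.L)
    {k G : V} (h : ∀ j ∈ lS k, D.T j = D'.T j) : D.Beta k G ↔ D'.Beta k G := by
  unfold Cx.Beta
  refine exists_congr fun ρ' => exists_congr fun G' => ?_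
  rw [ex_congr hN hH hL, cl_congr h, secS_congr hN hH hL]

/-- the rule of `k` depends only on the part of the table for the labels in the support -/
theorem ob_congr {D D' : Cx} (hN : D.N = D'.N) (hH : D.H = D'.H) (hL : D.L = D'.L)
    {k i G : V} (h : ∀ j ∈ lS k, D.T j = D'.T j) : D.Ob k i G ↔ D'.Ob k i G := by
  have e1 := unk_congr hN hH hL (G := G) h
  have e2 : ∀ y, D.Side k (lS i) G y ↔ D'.Side k (lS i) G y := fun y =>
    side_congr hN hH hL h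
  have e3 := beta_congr hN hH hL (G := G) h
  have e4 : ∀ a x, D.SecS (lS i) G a x ↔ D'.SecS (lS i) G a x := fun a x => secS_congr hN hH hL
  have e5 : D.W G = D'.W G := by unfold Cx.W; rw [hN]
  constructor
  · rintro ⟨a, b, c, d⟩
    refine ⟨?_, ?_, ?_, ?_⟩
    · rw [← e1, ← e5]; exact fun h1 h2 y h3 h4 h5 => (e2 y).1 (a h1 h2 y h3 h4 h5)
    · rw [← e1, ← e5]; exact fun h1 h2 y h3 h4 h5 h6 => b h1 h2 y h3 h4 h5 ((e2 y).2 h6)
    · rw [← e3, ← e4]; exact c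
    · rw [← e3, ← e4]; exact d
  · rintro ⟨a, b, c, d⟩
    refine ⟨?_, ?_, ?_, ?_⟩
    · rw [e1, e5]; exact fun h1 h2 y h3 h4 h5 => (e2 y).2 (a h1 h2 y h3 h4 h5)
    · rw [e1, e5]; exact fun h1 h2 y h3 h4 h5 h6 => b h1 h2 y h3 h4 h5 ((e2 y).1 h6)
    · rw [e3, e4]; exact c
    · rw [e3, e4]; exact d

theorem tb_ex {t ρ G ρ' G' : V} : (D.tb t).Ex ρ G ρ' G' ↔ D.Ex ρ G ρ' G' :=
  ex_congr (D := D.tb t) (D' := D) rfl rfl rfl

theorem tb_secS {t ρ G a x : V} : (D.tb t).SecS ρ G a x ↔ D.SecS ρ G a x :=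
  secS_congr (D := D.tb t) (D' := D) rfl rfl rfl

/-! ### renamings -/

/-- from the arguments after an extension of the state to the arguments before -/
def bk : ℕ → ℕ
  | 0 => 3
  | 1 => 1
  | 2 => 2
  | i + 3 => i + 4

/-- drop the first parameter -/
def nk : ℕ → ℕ
  | 0 => 0
  | 1 => 1
  | 2 => 2
  | i + 3 => i + 4

theorem ar_bk (D : Cx) (ρ ρ' : V) (u : ℕ → V) :
    (fun i => D.ar ρ' (cons ρ u) (bk i)) = D.ar ρ u := by
  funext i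
  match i with
  | 0 => rfl
  | 1 => rfl
  | 2 => rfl
  | i + 3 => rfl

theorem ar_nk (D : Cx) (ρ n : V) (u : ℕ → V) :
    (fun i => D.ar ρ (cons n u) (nk i)) = D.ar ρ u := by
  funext i
  match i with
  | 0 => rfl
  | 1 => rfl
  | 2 => rfl
  | i + 3 => rfl

/-- a function of the filter and the parameters, after an extension of the state -/
noncomputable def exB (B : (ℕ → V) → V) (v : ℕ → V) : V :=
  B (cons (gs (v 0) (v 4)) fun i => v (bk i + 1))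

/-- a function of the filter and the parameters, after the introduction of a new parameter -/
def nwB (B : (ℕ → V) → V) (v : ℕ → V) : V := B (cons (v 0) fun i => v (nk i + 1))

theorem tm_exB (hF : Dfn) {B : (ℕ → V) → V} (hB : Tm ZFm (fun _ v => B v)) :
    Tm ZFm (fun _ v => exB B v) :=
  hB.push (g := fun _ v => gs (v 0) (v 4))
    (Tm.at2 (F := fun _ x y => gs x y) hF.gs (Tm.var 0) (Tm.var 4)) (fun i => bk i + 1)

theorem tm_nwB {B : (ℕ → V) → V} (hB : Tm ZFm (fun _ v => B v)) :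
    Tm ZFm (fun _ v => nwB B v) :=
  hB.push (g := fun _ v => v 0) (Tm.var 0) (fun i => nk i + 1)

theorem exB_eq {B : (ℕ → V) → V} {ρ G ρ' G' : V} (u : ℕ → V) (h : gs G' ρ = G) :
    exB B (cons G' (D.ar ρ' (cons ρ u))) = B (cons G (D.ar ρ u)) := by
  unfold exB
  show B (cons (gs G' ρ) fun i => D.ar ρ' (cons ρ u) (bk i)) = _
  rw [ar_bk, h]

theorem nwB_eq {B : (ℕ → V) → V} {ρ G n : V} (u : ℕ → V) :
    nwB B (cons G (D.ar ρ (cons n u))) = B (cons G (D.ar ρ u)) := by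
  unfold nwB
  show B (cons G fun i => D.ar ρ (cons n u) (nk i)) = _
  rw [ar_nk]

/-! ### secured facts -/

theorem dcd_sec (hF : Dfn) (hB : Frc) (hDS : CAA.T_DS) (hD : D.Ok) {A B : (ℕ → V) → V}
    (hA : Tm ZFm (fun _ v => A v)) (hB' : Tm ZFm (fun _ v => B v)) :
    D.Dcd C (fun ρ u G => D.Sec ρ G (A (cons G (D.ar ρ u))) (B (cons G (D.ar ρ u)))) := by
  have hS : Dfb ZFm (fun M v => (∀ i ∈ v 1, ¬ Pro (v 4) (v 0) (ev (v 0) (lY i))) ∧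
      ¬ P3 M (exB A v) (exB B v)) := by
    refine Dfb.and ?_ (Dfb.at2 (P := fun M x y => P3 M x y) hF.p3 (tm_exB hF hA)
      (tm_exB hF hB')).not
    exact (Dfb.ball (R := fun _ v => ¬ Pro (v 5) (v 1) (ev (v 1) (lY (v 0)))) ktr_zfm (Tm.var 1)
      (Dfb.at3 (P := fun _ x y z => Pro x y z) hF.pro (Tm.var 5) (Tm.var 1)
        (Tm.at2 (F := fun _ x y => ev x y) hF.ev (Tm.var 1)
          (Tm.at1 (F := fun _ x => lY x) hF.lY (Tm.var 0)))).not).congr fun M k v hv => Iff.rfl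
  have h1 := dcd_base (C := fun _ _ => True) hF hB hDS hD hS
  refine ((h1.exx (C := C) hF hB hD fun _ _ _ _ _ _ _ _ _ _ => trivial).not hF hB hD).congr
    (fun _ _ _ _ _ h => h) fun ρ u h3 h4 h5 h6 G hG => ?_
  unfold Cx.Sec
  simp only [not_exists, not_and]
  refine forall_congr' fun ρ' => forall_congr' fun G' => ?_
  constructor
  · intro h hE hR
    by_contra h7
    refine h hE hR ?_
    rw [exB_eq u hE.res, exB_eq u hE.res]
    exact h7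
  · intro h hE hR h7
    rw [exB_eq u hE.res, exB_eq u hE.res] at h7
    exact h7 (h hE hR)

theorem dcd_secS (hF : Dfn) (hB : Frc) (hDS : CAA.T_DS) (hD : D.Ok) {A B : (ℕ → V) → V}
    (hA : Tm ZFm (fun _ v => A v)) (hB' : Tm ZFm (fun _ v => B v)) :
    D.Dcd C (fun ρ u G => D.SecS ρ G (A (cons G (D.ar ρ u))) (B (cons G (D.ar ρ u)))) := by
  have hv : Tm ZFm (fun _ v => val (v 0) (v 4)) := Tm.val (Tm.var 0) (Tm.var 4)
  have h1 : D.Dcd (fun _ _ => True) (fun ρ w G => Rl (val G (w 0)) ∧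
      D.Sec ρ G (nwB A (cons G (D.ar ρ w))) (prl (nwB B (cons G (D.ar ρ w))) (val G (w 0)))) :=
    (dcd_base hF hB hDS hD (S := fun _ v => Rl (val (v 0) (v 4)))
      (Dfb.at1 (P := fun _ x => Rl x) hF.rl hv)).and hF hD
      (dcd_sec hF hB hDS hD (tm_nwB hA) (B := fun v => prl (nwB B v) (val (v 0) (v 4)))
        (Tm.at2 (F := fun _ x y => prl x y) hF.prl (tm_nwB hB') hv))
  refine (h1.exw (C := C) (Z := fun ρ u G v => Rl v ∧ D.Sec ρ G (A (cons G (D.ar ρ u)))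
    (prl (B (cons G (D.ar ρ u))) v)) (fun _ _ _ _ _ _ _ _ => trivial) ?_).congr
    (fun _ _ _ _ _ h => h) fun ρ u h3 h4 h5 h6 G hG => Iff.rfl
  intro ρ u y h3 h4 h5 h6 hy G hG
  rw [nwB_eq, nwB_eq]
  rfl

/-! ### the class `C(s)` -/

theorem dcd_cl (hF : Dfn) (hB : Frc) (hDS : CAA.T_DS) (hD : D.Ok) {t s : (ℕ → V) → V}
    (ht : Tm ZFm (fun _ v => t v)) (hs : Tm ZFm (fun _ v => s v)) :
    D.Dcd C (fun ρ u G => (D.tb (t (cons G (D.ar ρ u)))).Cl (s (cons G (D.ar ρ u))) ρ G) := by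
  have hS : Dfb ZFm (fun M v => (∀ i ∈ v 1, ¬ Pro (v 1) (v 0) (ev (v 0) (lY i))) ∧
      ∀ k ∈ s v, ∀ i ∈ v 1, k ∈ lS i → ∃ p ∈ v 0, ZFSet.pair i p ∈ app (t v) k) := by
    refine Dfb.and ?_ ?_
    · exact (Dfb.ball (R := fun _ v => ¬ Pro (v 2) (v 1) (ev (v 1) (lY (v 0)))) ktr_zfm
        (Tm.var 1) (Dfb.at3 (P := fun _ x y z => Pro x y z) hF.pro (Tm.var 2) (Tm.var 1)
          (Tm.at2 (F := fun _ x y => ev x y) hF.ev (Tm.var 1)
            (Tm.at1 (F := fun _ x => lY x) hF.lY (Tm.var 0)))).not).congr fun M k v hv => Iff.rfl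
    · -- variables: `p, i, k, v`
      have h1 : Dfb ZFm (fun _ v => ZFSet.pair (v 1) (v 0) ∈ app (t fun i => v (i + 3)) (v 2)) :=
        Dfb.pairMem (Tm.var 1) (Tm.var 0) (Tm.app (ht.rn _) (Tm.var 2))
      have h2 : Dfb ZFm (fun _ v => v 1 ∈ lS (v 0) → ∃ p ∈ v 2,
          ZFSet.pair (v 0) p ∈ app (t fun i => v (i + 2)) (v 1)) :=
        (Dfb.mem (Tm.var 1) (Tm.at1 (F := fun _ x => lS x) hF.lS (Tm.var 0))).imp
          ((Dfb.bex ktr_zfm (Tm.var 2) h1).congr fun M k v hv => Iff.rfl)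
      have h3 : Dfb ZFm (fun _ v => ∀ i ∈ v 2, v 0 ∈ lS i → ∃ p ∈ v 1,
          ZFSet.pair i p ∈ app (t fun i => v (i + 1)) (v 0)) :=
        (Dfb.ball ktr_zfm (Tm.var 2) h2).congr fun M k v hv => Iff.rfl
      exact (Dfb.ball ktr_zfm hs h3).congr fun M k v hv => Iff.rfl
  refine (dcd_base hF hB hDS hD hS).congr (fun _ _ _ _ _ h => h)
    fun ρ u h3 h4 h5 h6 G hG => ?_
  exact ⟨fun h => ⟨h.1, h.2⟩, fun h => ⟨h.con, h.rul⟩⟩

/-! ### `Side` -/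

theorem dcd_side (hF : Dfn) (hB : Frc) (hDS : CAA.T_DS) (hD : D.Ok) {T K B : (ℕ → V) → V}
    (hT : Tm ZFm (fun _ v => T v)) (hK : Tm ZFm (fun _ v => K v)) (hB' : Tm ZFm (fun _ v => B v)) :
    D.Dcd C (fun ρ u G => (D.tb (T (D.ar ρ u))).Side (K (D.ar ρ u)) ρ G
      (B (cons G (D.ar ρ u)))) := by
  -- functions of `(G', ρ', H, L, ρ, u)`
  have hT' : Tm ZFm (fun _ v => T fun i => v (bk i + 1)) := hT.rn _
  have hK' : Tm ZFm (fun _ v => K fun i => v (bk i + 1)) := hK.rn _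
  have hlK : Tm ZFm (fun _ v => lS (K fun i => v (bk i + 1))) :=
    Tm.at1 (F := fun _ x => lS x) hF.lS hK'
  have hA : Tm ZFm (fun _ v => ev (v 0) (lA (K fun i => v (bk i + 1)))) :=
    Tm.at2 (F := fun _ x y => ev x y) hF.ev (Tm.var 0) (Tm.at1 (F := fun _ x => lA x) hF.lA hK')
  have h1 := ((dcd_cl (C := fun _ _ => True) hF hB hDS hD hT' hlK).and hF hD
    (dcd_secS hF hB hDS hD hA (tm_exB hF hB'))).exx (C := C) hF hB hD
    fun _ _ _ _ _ _ _ _ _ _ => trivial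
  refine h1.congr (fun _ _ _ _ _ h => h) fun ρ u h3 h4 h5 h6 G hG => ?_
  unfold Cx.Side
  refine exists_congr fun ρ' => exists_congr fun G' => ?_
  show (D.Ex ρ G ρ' G' ∧ ((D.tb (T fun i => D.ar ρ' (cons ρ u) (bk i))).Cl
    (lS (K fun i => D.ar ρ' (cons ρ u) (bk i))) ρ' G' ∧
    D.SecS ρ' G' (ev G' (lA (K fun i => D.ar ρ' (cons ρ u) (bk i))))
      (exB B (cons G' (D.ar ρ' (cons ρ u)))))) ↔ _
  rw [ar_bk, ex_congr (D := D.tb (T (D.ar ρ u))) (D' := D) rfl rfl rfl]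
  refine and_congr_right fun hE => and_congr_right fun _ => ?_
  rw [exB_eq u hE.res]
  exact tb_secS.symm

/-! ### `Unk` and `Beta` -/

/-- closed initial parts -/
theorem cl_lS (hF : Dfn) (hD : D.Ok) {ρ k : V} (h1 : ρ ∈ D.H) (h2 : Cld D.L ρ) (hk : k ∈ ρ) :
    lS k ∈ D.H ∧ Cld D.L (lS k) ∧ lS k ⊆ ρ := by
  have hkH : k ∈ D.H := hD.zfH.trans _ h1 k hk
  refine ⟨hF.lS.1 _ hD.zfH (fun _ => k) (fun _ => hkH), ?_, (h2 k hk).2⟩
  intro j hj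
  exact ⟨(h2 j ((h2 k hk).2 hj)).1, (h2 k hk).1.tr j hj⟩

theorem cl_ins (hF : Dfn) (hD : D.Ok) {ρ k : V} (h1 : ρ ∈ D.H) (h2 : Cld D.L ρ) (hk : k ∈ ρ) :
    insert k (lS k) ∈ D.H ∧ Cld D.L (insert k (lS k)) ∧ insert k (lS k) ⊆ ρ := by
  have hkH : k ∈ D.H := hD.zfH.trans _ h1 k hk
  obtain ⟨c1, c2, c3⟩ := cl_lS hF hD h1 h2 hk
  refine ⟨(Tm.ins (Tm.var 0) hF.lS).1 _ hD.zfH (fun _ => k) (fun _ => hkH), ?_, ?_⟩
  · intro j hj
    rcases ZFSet.mem_insert_iff.1 hj with rfl | hj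
    · exact ⟨(h2 j hk).1, fun x hx => ZFSet.mem_insert_iff.2 (Or.inr hx)⟩
    · exact ⟨(c2 j hj).1, fun x hx => ZFSet.mem_insert_iff.2 (Or.inr ((c2 j hj).2 hx))⟩
  · intro j hj
    rcases ZFSet.mem_insert_iff.1 hj with rfl | hj
    · exact hk
    · exact c3 hj

/-- parameters `t, k` -/
noncomputable def tk (T K : (ℕ → V) → V) (i : ℕ) : (V → Prop) → (ℕ → V) → V :=
  match i with
  | 0 => fun _ v => T v
  | 1 => fun _ v => K v
  | _ + 2 => fun _ v => v 0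

theorem tm_tk {T K : (ℕ → V) → V} (hT : Tm ZFm (fun _ v => T v)) (hK : Tm ZFm (fun _ v => K v))
    (i : ℕ) : Tm ZFm (tk T K i) := by
  match i with
  | 0 => exact hT
  | 1 => exact hK
  | _ + 2 => exact Tm.var 0

theorem dcd_unk (hF : Dfn) (hB : Frc) (hDS : CAA.T_DS) (hD : D.Ok) {T K : (ℕ → V) → V}
    (hT : Tm ZFm (fun _ v => T v)) (hK : Tm ZFm (fun _ v => K v))
    (hC : ∀ ρ u, ρ ∈ D.H → Cld D.L ρ → In D.N u → C ρ u → K (D.ar ρ u) ∈ ρ) :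
    D.Dcd C (fun ρ u G => (D.tb (T (D.ar ρ u))).Unk (K (D.ar ρ u)) G) := by
  -- the relation over `s = lS k`; functions of `(G', ρ', H, L, s, t, k)`
  have hA : ∀ {l : V → V}, Tm ZFm (fun _ v => l (v 0)) →
      Tm ZFm (fun _ v => nwB (fun v => ev (v 0) (l (v 6))) v) := fun {l} hl =>
    tm_nwB (Tm.at2 (F := fun _ x y => ev x y) hF.ev (Tm.var 0)
      (Tm.at1 (F := fun _ x => l x) hl (Tm.var 6)))
  have hy : Tm ZFm (fun _ v => val (v 0) (v 4)) := Tm.val (Tm.var 0) (Tm.var 4)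
  have h1 : D.Dcd (fun _ _ => True) (fun ρ' w G' => Rl (val G' (w 0)) ∧
      (D.SecS ρ' G' (nwB (fun v => ev (v 0) (lA (v 6))) (cons G' (D.ar ρ' w))) (val G' (w 0)) ∧
      D.SecS ρ' G' (nwB (fun v => ev (v 0) (lB (v 6))) (cons G' (D.ar ρ' w))) (val G' (w 0)))) :=
    (dcd_base hF hB hDS hD (S := fun _ v => Rl (val (v 0) (v 4)))
      (Dfb.at1 (P := fun _ x => Rl x) hF.rl hy)).and hF hD
      ((dcd_secS hF hB hDS hD (hA hF.lA) (B := fun v => val (v 0) (v 4)) hy).and hF hD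
        (dcd_secS hF hB hDS hD (hA hF.lB) (B := fun v => val (v 0) (v 4)) hy))
  have h2 := h1.exw (C := fun _ _ => True) (Z := fun ρ' w G' y => Rl y ∧
      (D.SecS ρ' G' (ev G' (lA (w 2))) y ∧ D.SecS ρ' G' (ev G' (lB (w 2))) y))
      (fun _ _ _ _ _ _ _ _ => trivial) (by
        intro ρ u y _ _ _ _ _ G _
        rw [nwB_eq, nwB_eq]
        rfl)
  have h3 := ((dcd_cl (C := fun _ _ => True) hF hB hDS hD (t := fun v => v 5)
    (s := fun v => lS (v 6)) (Tm.var 5) (Tm.at1 (F := fun _ x => lS x) hF.lS (Tm.var 6))).and hF hD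
    h2).exx (C := fun _ _ => True) hF hB hD fun _ _ _ _ _ _ _ _ _ _ => trivial
  have h4 := (h3.not hF hB hD).sub (C := C) hF hB hD (s := fun _ v => lS (K v))
    (Tm.at1 (F := fun _ x => lS x) hF.lS hK) (tm_tk hT hK)
    (fun ρ u h3 h4 h5 h6 => by
      obtain ⟨c1, c2, c3⟩ := cl_lS hF hD h3 h4 (hC ρ u h3 h4 h5 h6)
      exact ⟨c1, c2, c3, trivial⟩)
  refine h4.congr (fun _ _ _ _ _ h => h) fun ρ u _ _ _ _ G _ => ?_
  unfold Cx.Unk
  refine not_congr (exists_congr fun ρ' => exists_congr fun G' => ?_)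
  show (D.Ex (lS (K (D.ar ρ u))) (gs G (lS (K (D.ar ρ u)))) ρ' G' ∧
    ((D.tb (T (D.ar ρ u))).Cl (lS (K (D.ar ρ u))) ρ' G' ∧ ∃ y, D.W G' y ∧ (Rl y ∧
      (D.SecS ρ' G' (ev G' (lA (K (D.ar ρ u)))) y ∧
        D.SecS ρ' G' (ev G' (lB (K (D.ar ρ u)))) y)))) ↔ _
  constructor
  · rintro ⟨a, b, y, c, d, e, f⟩
    exact ⟨y, tb_ex.2 a, b, c, d, tb_secS.2 e, tb_secS.2 f⟩
  · rintro ⟨y, a, b, c, d, e, f⟩
    exact ⟨tb_ex.1 a, b, y, c, d, tb_secS.1 e, tb_secS.1 f⟩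

theorem dcd_beta (hF : Dfn) (hB : Frc) (hDS : CAA.T_DS) (hD : D.Ok) {T K : (ℕ → V) → V}
    (hT : Tm ZFm (fun _ v => T v)) (hK : Tm ZFm (fun _ v => K v))
    (hC : ∀ ρ u, ρ ∈ D.H → Cld D.L ρ → In D.N u → C ρ u → K (D.ar ρ u) ∈ ρ) :
    D.Dcd C (fun ρ u G => (D.tb (T (D.ar ρ u))).Beta (K (D.ar ρ u)) G) := by
  -- functions of `(G', ρ', H, L, s, t, k)`
  have hc : Tm ZFm (fun _ v => cg (v 0) (v 6)) :=
    Tm.at2 (F := fun _ x y => cg x y) hF.cg (Tm.var 0) (Tm.var 6)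
  have hA : Tm ZFm (fun _ v => ev (v 0) (lB (v 6))) :=
    Tm.at2 (F := fun _ x y => ev x y) hF.ev (Tm.var 0)
      (Tm.at1 (F := fun _ x => lB x) hF.lB (Tm.var 6))
  have hS : Dfb ZFm (fun _ v => ∀ i ∈ v 1, ev (v 0) (lZ i) ≠ prl (kc 2) (cg (v 0) (v 6)) ∧
      ev (v 0) (lZ i) ≠ prl (kc 3) (cg (v 0) (v 6))) := by
    have h1 : ∀ e : ℕ, Dfb ZFm (fun _ v => ev (v 1) (lZ (v 0)) ≠ prl (kc e) (cg (v 1) (v 7))) :=
      fun e => (Dfb.eq (Tm.at2 (F := fun _ x y => ev x y) hF.ev (Tm.var 1)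
        (Tm.at1 (F := fun _ x => lZ x) hF.lZ (Tm.var 0)))
        (Tm.at2 (F := fun _ x y => prl x y) hF.prl (hF.kc e)
          (Tm.at2 (F := fun _ x y => cg x y) hF.cg (Tm.var 1) (Tm.var 7)))).not
    exact (Dfb.ball ktr_zfm (Tm.var 1) ((h1 2).and (h1 3))).congr fun M k v hv => Iff.rfl
  have h3 := ((dcd_cl (C := fun _ _ => True) hF hB hDS hD (t := fun v => v 5)
    (s := fun v => lS (v 6)) (Tm.var 5) (Tm.at1 (F := fun _ x => lS x) hF.lS (Tm.var 6))).and hF hD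
    ((dcd_base hF hB hDS hD hS).and hF hD (dcd_secS hF hB hDS hD hA hc))).exx
    (C := fun _ _ => True) hF hB hD fun _ _ _ _ _ _ _ _ _ _ => trivial
  have h4 := h3.sub (C := C) hF hB hD (s := fun _ v => insert (K v) (lS (K v)))
    (Tm.ins hK (Tm.at1 (F := fun _ x => lS x) hF.lS hK)) (tm_tk hT hK)
    (fun ρ u h3 h4 h5 h6 => by
      obtain ⟨c1, c2, c3⟩ := cl_ins hF hD h3 h4 (hC ρ u h3 h4 h5 h6)
      exact ⟨c1, c2, c3, trivial⟩)
  refine h4.congr (fun _ _ _ _ _ h => h) fun ρ u _ _ _ _ G _ => ?_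
  unfold Cx.Beta
  refine exists_congr fun ρ' => exists_congr fun G' => ?_
  show (D.Ex (insert (K (D.ar ρ u)) (lS (K (D.ar ρ u))))
    (gs G (insert (K (D.ar ρ u)) (lS (K (D.ar ρ u))))) ρ' G' ∧
    ((D.tb (T (D.ar ρ u))).Cl (lS (K (D.ar ρ u))) ρ' G' ∧ ((∀ i ∈ ρ',
      ev G' (lZ i) ≠ prl (kc 2) (cg G' (K (D.ar ρ u))) ∧
      ev G' (lZ i) ≠ prl (kc 3) (cg G' (K (D.ar ρ u)))) ∧
      D.SecS ρ' G' (ev G' (lB (K (D.ar ρ u)))) (cg G' (K (D.ar ρ u)))))) ↔ _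
  rw [ex_congr (D := D.tb (T (D.ar ρ u))) (D' := D) rfl rfl rfl,
    secS_congr (D := D.tb (T (D.ar ρ u))) (D' := D) rfl rfl rfl]

/-! ### the rules -/

/-- the parameters are `t, k, i`; the filter is on the support of `i` -/
def COb (ρ : V) (u : ℕ → V) : Prop := ρ = lS (u 2) ∧ u 1 ∈ ρ

theorem dcd_ob (hF : Dfn) (hB : Frc) (hDS : CAA.T_DS) (hD : D.Ok) :
    D.Dcd COb (fun ρ u G => (D.tb (u 0)).Ob (u 1) (u 2) G) := by
  have hC : ∀ ρ u, ρ ∈ D.H → Cld D.L ρ → In D.N u → COb ρ u →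
      (fun v : ℕ → V => v 4) (D.ar ρ u) ∈ ρ := fun ρ u _ _ _ h => h.2
  have hE : ∀ e : ℕ, Dfb ZFm (fun _ v => lE (v 4) = nS e) := fun e =>
    Dfb.eq (Tm.at1 (F := fun _ x => lE x) hF.lE (Tm.var 4)) (Tm.nS e)
  have hU := dcd_unk (C := COb) hF hB hDS hD (T := fun v => v 3) (K := fun v => v 4) (Tm.var 3)
    (Tm.var 4) hC
  have hBe := dcd_beta (C := COb) hF hB hDS hD (T := fun v => v 3) (K := fun v => v 4) (Tm.var 3)
    (Tm.var 4) hC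
  -- type 1: `(G, ρ, H, L, n, t, k, i)`
  have hv : Tm ZFm (fun _ v => val (v 0) (v 4)) := Tm.val (Tm.var 0) (Tm.var 4)
  have hZ : ∀ e : ℕ, Dfb ZFm (fun _ v => Rl (val (v 0) (v 4)) ∧
      ev (v 0) (lZ (v 7)) = prl (kc e) (prl (cg (v 0) (v 6)) (val (v 0) (v 4)))) := fun e =>
    (Dfb.at1 (P := fun _ x => Rl x) hF.rl hv).and (Dfb.eq (Tm.at2 (F := fun _ x y => ev x y) hF.ev
      (Tm.var 0) (Tm.at1 (F := fun _ x => lZ x) hF.lZ (Tm.var 7)))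
      (Tm.at2 (F := fun _ x y => prl x y) hF.prl (hF.kc e) (Tm.at2 (F := fun _ x y => prl x y)
        hF.prl (Tm.at2 (F := fun _ x y => cg x y) hF.cg (Tm.var 0) (Tm.var 6)) hv)))
  have hSd := dcd_side (C := fun _ _ => True) hF hB hDS hD (T := fun v => v 4) (K := fun v => v 5)
    (B := fun v => val (v 0) (v 4)) (Tm.var 4) (Tm.var 5) hv
  have hr0 := (((dcd_base (C := fun _ _ => True) hF hB hDS hD (hZ 0)).and hF hD
    (hSd.not hF hB hD)).exw (C := COb) (Z := fun ρ u G y => (Rl y ∧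
      ev G (lZ (u 2)) = prl (kc 0) (prl (cg G (u 1)) y)) ∧
      ¬ (D.tb (u 0)).Side (u 1) ρ G y) (fun _ _ _ _ _ _ _ _ => trivial)
      (fun _ _ _ _ _ _ _ _ _ _ => Iff.rfl)).not hF hB hD
  have hr1 := (((dcd_base (C := fun _ _ => True) hF hB hDS hD (hZ 1)).and hF hD
    hSd).exw (C := COb) (Z := fun ρ u G y => (Rl y ∧
      ev G (lZ (u 2)) = prl (kc 1) (prl (cg G (u 1)) y)) ∧
      (D.tb (u 0)).Side (u 1) ρ G y) (fun _ _ _ _ _ _ _ _ => trivial)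
      (fun _ _ _ _ _ _ _ _ _ _ => Iff.rfl)).not hF hB hD
  -- type 2: `(G, ρ, H, L, t, k, i)`
  have hz : ∀ e : ℕ, Dfb ZFm (fun _ v => ev (v 0) (lZ (v 6)) = prl (kc e) (cg (v 0) (v 5))) :=
    fun e => Dfb.eq (Tm.at2 (F := fun _ x y => ev x y) hF.ev
      (Tm.var 0) (Tm.at1 (F := fun _ x => lZ x) hF.lZ (Tm.var 6)))
      (Tm.at2 (F := fun _ x y => prl x y) hF.prl (hF.kc e)
        (Tm.at2 (F := fun _ x y => cg x y) hF.cg (Tm.var 0) (Tm.var 5)))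
  have hc : Tm ZFm (fun _ v => cg (v 0) (v 5)) :=
    Tm.at2 (F := fun _ x y => cg x y) hF.cg (Tm.var 0) (Tm.var 5)
  have hsB := dcd_secS (C := COb) hF hB hDS hD (A := fun v => ev (v 0) (lB (v 5)))
    (B := fun v => cg (v 0) (v 5)) (Tm.at2 (F := fun _ x y => ev x y) hF.ev (Tm.var 0)
      (Tm.at1 (F := fun _ x => lB x) hF.lB (Tm.var 5))) hc
  have hsA := dcd_secS (C := COb) hF hB hDS hD (A := fun v => ev (v 0) (lA (v 5)))
    (B := fun v => cg (v 0) (v 5)) (Tm.at2 (F := fun _ x y => ev x y) hF.ev (Tm.var 0)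
      (Tm.at1 (F := fun _ x => lA x) hF.lA (Tm.var 5))) hc
  have h0 := (dcd_gr (C := COb) hF hD (hE 1)).imp hF hB hD (hU.imp hF hB hD hr0)
  have h1 := (dcd_gr (C := COb) hF hD (hE 1)).imp hF hB hD (hU.imp hF hB hD hr1)
  have h2 := (dcd_gr (C := COb) hF hD (hE 2)).imp hF hB hD
    ((dcd_base (C := COb) hF hB hDS hD (hz 2)).imp hF hB hD (hBe.and hF hD hsB))
  have h3 := (dcd_gr (C := COb) hF hD (hE 2)).imp hF hB hD
    ((dcd_base (C := COb) hF hB hDS hD (hz 3)).imp hF hB hD ((hBe.not hF hB hD).and hF hD hsA))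
  refine (h0.and hF hD (h1.and hF hD (h2.and hF hD h3))).congr (fun _ _ _ _ _ h => h)
    fun ρ u _ _ _ hc G _ => ?_
  obtain ⟨hρ, hk⟩ := hc
  show ((lE (u 1) = nS 1 → (D.tb (u 0)).Unk (u 1) G → ¬ ∃ y, D.W G y ∧ (Rl y ∧
      ev G (lZ (u 2)) = prl (kc 0) (prl (cg G (u 1)) y)) ∧ ¬ (D.tb (u 0)).Side (u 1) ρ G y) ∧
    (lE (u 1) = nS 1 → (D.tb (u 0)).Unk (u 1) G → ¬ ∃ y, D.W G y ∧ (Rl y ∧
      ev G (lZ (u 2)) = prl (kc 1) (prl (cg G (u 1)) y)) ∧ (D.tb (u 0)).Side (u 1) ρ G y) ∧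
    (lE (u 1) = nS 2 → ev G (lZ (u 2)) = prl (kc 2) (cg G (u 1)) → (D.tb (u 0)).Beta (u 1) G ∧
      D.SecS ρ G (ev G (lB (u 1))) (cg G (u 1))) ∧
    (lE (u 1) = nS 2 → ev G (lZ (u 2)) = prl (kc 3) (cg G (u 1)) → ¬ (D.tb (u 0)).Beta (u 1) G ∧
      D.SecS ρ G (ev G (lA (u 1))) (cg G (u 1)))) ↔ _
  subst hρ
  constructor
  · rintro ⟨a, b, c, d⟩
    refine ⟨?_, ?_, ?_, ?_⟩
    · intro h1 h2 y h3 h4 h5
      by_contra h6
      exact a h1 h2 ⟨y, h3, ⟨h4, h5⟩, h6⟩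
    · intro h1 h2 y h3 h4 h5 h6
      exact b h1 h2 ⟨y, h3, ⟨h4, h5⟩, h6⟩
    · intro h1 h2
      exact ⟨(c h1 h2).1, tb_secS.2 (c h1 h2).2⟩
    · intro h1 h2
      exact ⟨(d h1 h2).1, tb_secS.2 (d h1 h2).2⟩
  · rintro ⟨a, b, c, d⟩
    refine ⟨?_, ?_, ?_, ?_⟩
    · rintro h1 h2 ⟨y, h3, ⟨h4, h5⟩, h6⟩
      exact h6 (a h1 h2 y h3 h4 h5)
    · rintro h1 h2 ⟨y, h3, ⟨h4, h5⟩, h6⟩
      exact b h1 h2 y h3 h4 h5 h6
    · intro h1 h2
      exact ⟨(c h1 h2).1, tb_secS.1 (c h1 h2).2⟩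
    · intro h1 h2
      exact ⟨(d h1 h2).1, tb_secS.1 (d h1 h2).2⟩

end SE
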