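import Pool.Agent.H38.SE.TarA

/-!
# MP_eaeaf5_lc, part W (definability): the calculus of decided relations

`D.Dcd C X`: the relation `X ρ u G` (`ρ ∈ D.H` closed, `u` parameters in the ground model with
`C ρ u`, `G` generic for `Pos D.L ρ`) is decided by conditions, and the relation of p deciding it is definable
in the ground model from `ρ, H, L, u`, uniformly.
-/

set_option linter.unusedVariables false

open Ordinal Order Set
open scoped ZFSet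

namespace SE

open SF

/-- definability of the basic notions -/
structure Dfn : Prop where
  rl : Dfb ZFm (fun _ v => Rl (v 0))
  prl : Tm ZFm (fun _ v => prl (v 0) (v 1))
  kc : ∀ e : ℕ, Tm ZFm (fun _ _ => kc e)
  p3 : Dfb ZFm (fun M v => P3 M (v 0) (v 1))
  rst : Tm ZFm (fun _ v => rst (v 0) (v 1))
  le : Dfb ZFm (fun _ v => Le (v 0) (v 1))
  pos : Tm ZFm (fun _ v => Pos (v 0) (v 1))
  odr : Tm ZFm (fun _ v => Odr (v 0) (v 1))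
  lab : Dfb ZFm (fun _ v => Lab (v 0) (v 1))
  cld : Dfb ZFm (fun _ v => Cld (v 0) (v 1))
  lE : Tm ZFm (fun _ v => lE (v 0))
  lS : Tm ZFm (fun _ v => lS (v 0))
  lY : Tm ZFm (fun _ v => lY (v 0))
  lZ : Tm ZFm (fun _ v => lZ (v 0))
  lA : Tm ZFm (fun _ v => lA (v 0))
  lB : Tm ZFm (fun _ v => lB (v 0))
  ev : Tm ZFm (fun _ v => ev (v 0) (v 1))
  cg : Tm ZFm (fun _ v => cg (v 0) (v 1))
  gs : Tm ZFm (fun _ v => gs (v 0) (v 1))
  pro : Dfb ZFm (fun _ v => Pro (v 0) (v 1) (v 2))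

/-- basic facts on the forcing -/
structure Frc : Prop where
  po : ∀ L ρ, Cld L ρ → IsPo (Pos L ρ) (Odr L ρ)
  rst : ∀ L ρ s p, Cld L ρ → Cld L s → s ⊆ ρ → p ∈ Pos L ρ →
    rst s p ∈ Pos L s ∧ rst s p ∈ Pos L ρ ∧ Le p (rst s p)
  sub : ∀ L ρ s p, Cld L ρ → Cld L s → s ⊆ ρ → (p ∈ Pos L s ↔ p ∈ Pos L ρ ∧ dm p ⊆ s)
  res : ∀ D : Cx, D.Ok → ∀ ρ s G, D.St ρ G → s ∈ D.H → Cld D.L s → s ⊆ ρ → D.Gn s (gs G s)
  ext : ∀ D : Cx, D.Ok → ∀ s G ρ p, D.St s G → ρ ∈ D.H → Cld D.L ρ → s ⊆ ρ →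
    p ∈ Pos D.L ρ → SE.rst s p ∈ G → ∃ G', D.Ex s G ρ G' ∧ p ∈ G'
  gen : ∀ D : Cx, D.Ok → ∀ ρ p, ρ ∈ D.H → Cld D.L ρ → p ∈ Pos D.L ρ → ∃ G, D.Gn ρ G ∧ p ∈ G

theorem mem_Odr {L ρ p q : V} : ZFSet.pair q p ∈ Odr L ρ ↔ q ∈ Pos L ρ ∧ p ∈ Pos L ρ ∧ Le q p := by
  unfold Odr
  rw [ZFSet.mem_sep, ZFSet.pair_mem_prod, fst_pair, snd_pair]
  exact and_assoc

/-- arguments: `ρ`, `H`, `L`, parameters -/
noncomputable def Cx.ar (D : Cx) (ρ : V) (u : ℕ → V) : ℕ → V := cons ρ (cons D.H (cons D.L u))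

/-- the relation `X` is decided by conditions, definably -/
def Cx.Dcd (D : Cx) (C : V → (ℕ → V) → Prop) (X : V → (ℕ → V) → V → Prop) : Prop :=
  ∃ R : (V → Prop) → (ℕ → V) → Prop, Dfb ZFm R ∧ ∀ ρ u, ρ ∈ D.H → Cld D.L ρ → In D.N u → C ρ u →
    ∀ G, D.Gn ρ G → (X ρ u G ↔ ∃ p ∈ G, R D.N (cons p (D.ar ρ u)))

variable {D : Cx} {C C' : V → (ℕ → V) → Prop} {X Y : V → (ℕ → V) → V → Prop}

theorem Cx.Ok.zfm (hD : D.Ok) : ZFm D.N := hD.zfc.toZFCm.toZFm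

theorem Cx.Ok.nH (hD : D.Ok) {x : V} (hx : x ∈ D.H) : D.N x := hD.zfm.trans _ hD.hN x hx

theorem Cx.Ok.nL (hD : D.Ok) : D.N D.L := hD.nH hD.lH

theorem Cx.Ok.inar (hD : D.Ok) {ρ : V} (hρ : D.N ρ) {u : ℕ → V} (hu : In D.N u) :
    In D.N (D.ar ρ u) := In.cons (In.cons (In.cons hu hD.nL) hD.hN) hρ

theorem Cx.Ok.npos (hF : Dfn) (hD : D.Ok) {ρ : V} (hρ : D.N ρ) : D.N (Pos D.L ρ) :=
  hF.pos.1 D.N hD.zfm (cons D.L (cons ρ fun _ => D.L))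
    (In.cons (In.cons (fun _ => hD.nL) hρ) hD.nL)

theorem Cx.Ok.nodr (hF : Dfn) (hD : D.Ok) {ρ : V} (hρ : D.N ρ) : D.N (Odr D.L ρ) :=
  hF.odr.1 D.N hD.zfm (cons D.L (cons ρ fun _ => D.L))
    (In.cons (In.cons (fun _ => hD.nL) hρ) hD.nL)

theorem gn_sub {ρ G p : V} (hG : D.Gn ρ G) (hp : p ∈ G) : p ∈ Pos D.L ρ := hG.1.sub hp

theorem Cx.Dcd.congr (h : D.Dcd C X) (hC : ∀ ρ u, ρ ∈ D.H → Cld D.L ρ → In D.N u → C' ρ u → C ρ u)
    (hX : ∀ ρ u, ρ ∈ D.H → Cld D.L ρ → In D.N u → C' ρ u → ∀ G, D.Gn ρ G →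
      (X ρ u G ↔ Y ρ u G)) : D.Dcd C' Y := by
  obtain ⟨R, hR, h2⟩ := h
  exact ⟨R, hR, fun ρ u h3 h4 h5 h6 G hG =>
    (hX ρ u h3 h4 h5 h6 G hG).symm.trans (h2 ρ u h3 h4 h5 (hC ρ u h3 h4 h5 h6) G hG)⟩

/-- relations which are definable in the extension -/
theorem dcd_base (hF : Dfn) (hB : Frc) (hDS : CAA.T_DS) (hD : D.Ok)
    {S : (V → Prop) → (ℕ → V) → Prop} (hS : Dfb ZFm S) :
    D.Dcd C (fun ρ u G => S (D.W G) (cons G (D.ar ρ u))) := by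
  obtain ⟨O, hO, hO2⟩ := hDS S hS
  refine ⟨fun M w => w 0 ∈ O M (cons (Pos (w 3) (w 1)) (cons (Odr (w 3) (w 1))
    fun i => w (i + 1))), ?_, ?_⟩
  · refine Dfb.mem (Tm.var 0) ((hO.comp (fun i => match i with
      | 0 => fun _ w => Pos (w 3) (w 1)
      | 1 => fun _ w => Odr (w 3) (w 1)
      | i + 2 => fun _ w => w (i + 1)) fun i => ?_).congr fun M k v hv => ?_)
    · match i with
      | 0 => exact Tm.at2 (F := fun _ x y => Pos x y) hF.pos (Tm.var 3) (Tm.var 1)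
      | 1 => exact Tm.at2 (F := fun _ x y => Odr x y) hF.odr (Tm.var 3) (Tm.var 1)
      | i + 2 => exact Tm.var _
    · congr 1
      funext i
      match i with
      | 0 => rfl
      | 1 => rfl
      | i + 2 => rfl
  · intro ρ u h3 h4 h5 h6 G hG
    exact (hO2 D.N (Pos D.L ρ) (Odr D.L ρ) (D.ar ρ u) hD.zfm (hD.npos hF (hD.nH h3))
      (hD.nodr hF (hD.nH h3)) (hB.po _ _ h4) (hD.inar (hD.nH h3) h5)).2.1 G hG

/-- relations of the ground model -/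
theorem dcd_gr (hF : Dfn) (hD : D.Ok) {S : (V → Prop) → (ℕ → V) → Prop} (hS : Dfb ZFm S) :
    D.Dcd C (fun ρ u G => S D.N (D.ar ρ u)) := by
  refine ⟨fun M w => S M fun i => w (i + 1), hS.rn _, ?_⟩
  intro ρ u h3 h4 h5 h6 G hG
  constructor
  · intro h
    obtain ⟨p, hp⟩ := hG.1.ne
    exact ⟨p, hp, h⟩
  · rintro ⟨p, hp, h⟩
    exact h

/-- the set of the conditions with a definable property -/
theorem Cx.Ok.nsep (hF : Dfn) (hD : D.Ok) {R : (V → Prop) → (ℕ → V) → Prop} (hR : Dfb ZFm R)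
    {ρ : V} (hρ : D.N ρ) {u : ℕ → V} (hu : In D.N u) :
    D.N ((Pos D.L ρ).sep fun p => R D.N (cons p (D.ar ρ u))) := by
  have h := (Tm.sep (f := fun _ w => Pos (w 2) (w 0)) hR
    (Tm.at2 (F := fun _ x y => Pos x y) hF.pos (Tm.var 2) (Tm.var 0))).1 D.N hD.zfm (D.ar ρ u)
    (hD.inar hρ hu)
  exact h

/-- negation -/
theorem Cx.Dcd.not (hF : Dfn) (hB : Frc) (hD : D.Ok) (h : D.Dcd C X) :
    D.Dcd C (fun ρ u G => ¬ X ρ u G) := by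
  obtain ⟨R, hR, h2⟩ := h
  -- `p` is incompatible with all conditions which satisfy `R`
  have hR' : Dfb ZFm (fun M w => ∀ q ∈ Pos (w 3) (w 1), R M (cons q fun i => w (i + 1)) →
      ∀ r ∈ Pos (w 3) (w 1), Le r (w 0) → ¬ Le r q) := by
    have hP : Tm ZFm (fun _ w => Pos (w 3) (w 1)) :=
      Tm.at2 (F := fun _ x y => Pos x y) hF.pos (Tm.var 3) (Tm.var 1)
    have hP1 : Tm ZFm (fun _ w => Pos (w 4) (w 2)) :=
      Tm.at2 (F := fun _ x y => Pos x y) hF.pos (Tm.var 4) (Tm.var 2)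
    have h3 : Dfb ZFm (fun M w => ∀ r ∈ Pos (w 4) (w 2), Le r (w 1) → ¬ Le r (w 0)) :=
      (Dfb.ball (R := fun M w => Le (w 0) (w 2) → ¬ Le (w 0) (w 1)) ktr_zfm hP1
        ((Dfb.at2 (P := fun _ x y => Le x y) hF.le (Tm.var 0) (Tm.var 2)).imp
          (Dfb.at2 (P := fun _ x y => Le x y) hF.le (Tm.var 0) (Tm.var 1)).not)).congr
        fun M k w hw => Iff.rfl
    have h4 : Dfb ZFm (fun M w => R M fun i => w (shr 1 i)) := hR.rn _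
    refine (Dfb.ball (R := fun M w => (R M fun i => w (shr 1 i)) →
      ∀ r ∈ Pos (w 4) (w 2), Le r (w 1) → ¬ Le r (w 0)) ktr_zfm hP (h4.imp h3)).congr
      fun M k w hw => ?_
    refine forall_congr' fun q => imp_congr_right fun _ => ?_
    rw [cons_shr_one]
    rfl
  refine ⟨_, hR', ?_⟩
  intro ρ u h3 h4 h5 h6 G hG
  show ¬ X ρ u G ↔ ∃ p ∈ G, ∀ q ∈ Pos D.L ρ, R D.N (cons q (D.ar ρ u)) →
      ∀ r ∈ Pos D.L ρ, Le r p → ¬ Le r q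
  rw [h2 ρ u h3 h4 h5 h6 G hG]
  have hN1 := hD.nsep hF hR (hD.nH h3) h5
  have hN2 := hD.nsep hF hR' (hD.nH h3) h5
  have hpo := hB.po D.L ρ h4
  constructor
  · intro h
    -- a dense set
    have hN3 : D.N (((Pos D.L ρ).sep fun p => ∃ q ∈ ((Pos D.L ρ).sep fun p =>
        R D.N (cons p (D.ar ρ u))), Le p q) ∪ (Pos D.L ρ).sep fun p =>
        ∀ q ∈ Pos D.L ρ, R D.N (cons q (D.ar ρ u)) → ∀ r ∈ Pos D.L ρ, Le r p → ¬ Le r q) := by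
      have h7 := (Tm.union (Tm.sep (f := fun _ w => w 0)
        (R := fun _ w => ∃ q ∈ w 2, Le (w 0) q)
        ((Dfb.bex (R := fun _ w => Le (w 1) (w 0)) ktr_zfm (Tm.var 2)
          (Dfb.at2 (P := fun _ x y => Le x y) hF.le (Tm.var 1) (Tm.var 0))).congr
          fun M k w hw => Iff.rfl) (Tm.var 0)) (Tm.var 2)).1 D.N hD.zfm
        (cons (Pos D.L ρ) (cons ((Pos D.L ρ).sep fun p => R D.N (cons p (D.ar ρ u)))
          (cons ((Pos D.L ρ).sep fun p => ∀ q ∈ Pos D.L ρ, R D.N (cons q (D.ar ρ u)) →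
            ∀ r ∈ Pos D.L ρ, Le r p → ¬ Le r q) fun _ => D.L)))
        (In.cons (In.cons (In.cons (fun _ => hD.nL) hN2) hN1) (hD.npos hF (hD.nH h3)))
      exact h7
    obtain ⟨p, hp, hp2⟩ := hG.2 _ hN3 (by
      constructor
      · intro p hp
        rcases ZFSet.mem_union.1 hp with h7 | h7
        · exact (ZFSet.mem_sep.1 h7).1
        · exact (ZFSet.mem_sep.1 h7).1
      · intro p hp
        by_cases h7 : ∃ q ∈ Pos D.L ρ, R D.N (cons q (D.ar ρ u)) ∧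
            ∃ r ∈ Pos D.L ρ, Le r p ∧ Le r q
        · obtain ⟨q, hq, h8, r, hr, h9, h10⟩ := h7
          refine ⟨r, ZFSet.mem_union.2 (Or.inl (ZFSet.mem_sep.2 ⟨hr, q,
            ZFSet.mem_sep.2 ⟨hq, h8⟩, h10⟩)), mem_Odr.2 ⟨hr, hp, h9⟩⟩
        · refine ⟨p, ZFSet.mem_union.2 (Or.inr (ZFSet.mem_sep.2 ⟨hp, ?_⟩)), hpo.refl p hp⟩
          intro q hq h8 r hr h9 h10
          exact h7 ⟨q, hq, h8, r, hr, h9, h10⟩)
    rcases ZFSet.mem_union.1 hp2 with h7 | h7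
    · obtain ⟨h8, q, hq, h9⟩ := ZFSet.mem_sep.1 h7
      obtain ⟨hq1, hq2⟩ := ZFSet.mem_sep.1 hq
      exact absurd ⟨q, hG.1.up p hp q (mem_Odr.2 ⟨h8, hq1, h9⟩), hq2⟩ h
    · exact ⟨p, hp, (ZFSet.mem_sep.1 h7).2⟩
  · rintro ⟨p, hp, h7⟩ ⟨q, hq, h8⟩
    obtain ⟨r, hr, h9, h10⟩ := hG.1.dir p hp q hq
    exact h7 q (gn_sub hG hq) h8 r (gn_sub hG hr) (mem_Odr.1 h9).2.2 (mem_Odr.1 h10).2.2

/-- conjunction -/
theorem Cx.Dcd.and (hF : Dfn) (hD : D.Ok) (h : D.Dcd C X) (h' : D.Dcd C Y) :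
    D.Dcd C (fun ρ u G => X ρ u G ∧ Y ρ u G) := by
  obtain ⟨R, hR, h2⟩ := h
  obtain ⟨R', hR', h2'⟩ := h'
  refine ⟨fun M w => (∃ q ∈ Pos (w 3) (w 1), Le (w 0) q ∧ R M (cons q fun i => w (i + 1))) ∧
    ∃ q ∈ Pos (w 3) (w 1), Le (w 0) q ∧ R' M (cons q fun i => w (i + 1)), ?_, ?_⟩
  · have hP : Tm ZFm (fun _ w => Pos (w 3) (w 1)) :=
      Tm.at2 (F := fun _ x y => Pos x y) hF.pos (Tm.var 3) (Tm.var 1)
    have h3 : ∀ {R : (V → Prop) → (ℕ → V) → Prop}, Dfb ZFm R → Dfb ZFm (fun M w =>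
        ∃ q ∈ Pos (w 3) (w 1), Le (w 0) q ∧ R M (cons q fun i => w (i + 1))) := by
      intro R hR
      refine (Dfb.bex (R := fun M w => Le (w 1) (w 0) ∧ R M fun i => w (shr 1 i)) ktr_zfm hP
        ((Dfb.at2 (P := fun _ x y => Le x y) hF.le (Tm.var 1) (Tm.var 0)).and (hR.rn _))).congr
        fun M k w hw => ?_
      refine exists_congr fun q => and_congr_right fun _ => ?_
      rw [cons_shr_one]
      rfl
    exact (h3 hR).and (h3 hR')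
  · intro ρ u h3 h4 h5 h6 G hG
    show (X ρ u G ∧ Y ρ u G) ↔ ∃ p ∈ G,
      (∃ q ∈ Pos D.L ρ, Le p q ∧ R D.N (cons q (D.ar ρ u))) ∧
        ∃ q ∈ Pos D.L ρ, Le p q ∧ R' D.N (cons q (D.ar ρ u))
    rw [h2 ρ u h3 h4 h5 h6 G hG, h2' ρ u h3 h4 h5 h6 G hG]
    constructor
    · rintro ⟨⟨p, hp, h7⟩, q, hq, h8⟩
      obtain ⟨r, hr, h9, h10⟩ := hG.1.dir p hp q hq
      exact ⟨r, hr, ⟨p, gn_sub hG hp, (mem_Odr.1 h9).2.2, h7⟩,
        q, gn_sub hG hq, (mem_Odr.1 h10).2.2, h8⟩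
    · rintro ⟨p, hp, ⟨q, hq, h7, h8⟩, q', hq', h9, h10⟩
      exact ⟨⟨q, hG.1.up p hp q (mem_Odr.2 ⟨gn_sub hG hp, hq, h7⟩), h8⟩,
        q', hG.1.up p hp q' (mem_Odr.2 ⟨gn_sub hG hp, hq', h9⟩), h10⟩

theorem Cx.Dcd.or (hF : Dfn) (hB : Frc) (hD : D.Ok) (h : D.Dcd C X) (h' : D.Dcd C Y) :
    D.Dcd C (fun ρ u G => X ρ u G ∨ Y ρ u G) :=
  (((h.not hF hB hD).and hF hD (h'.not hF hB hD)).not hF hB hD).congr (fun _ _ _ _ _ h => h)
    fun ρ u _ _ _ _ G _ => by tauto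

theorem Cx.Dcd.imp (hF : Dfn) (hB : Frc) (hD : D.Ok) (h : D.Dcd C X) (h' : D.Dcd C Y) :
    D.Dcd C (fun ρ u G => X ρ u G → Y ρ u G) :=
  ((h.and hF hD (h'.not hF hB hD)).not hF hB hD).congr (fun _ _ _ _ _ h => h)
    fun ρ u _ _ _ _ G _ => by tauto

/-- quantifier over the ground model -/
theorem Cx.Dcd.exg (h : D.Dcd C' X)
    (hC : ∀ ρ u y, ρ ∈ D.H → Cld D.L ρ → In D.N u → C ρ u → D.N y → C' ρ (cons y u)) :
    D.Dcd C (fun ρ u G => ∃ y, D.N y ∧ X ρ (cons y u) G) := by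
  obtain ⟨R, hR, h2⟩ := h
  refine ⟨fun M w => ∃ y, M y ∧ R M (cons (w 0) (cons (w 1) (cons (w 2) (cons (w 3)
    (cons y fun i => w (i + 4)))))), ?_, ?_⟩
  · refine (Dfb.ex (R := fun M w => R M fun i => w (match i with
      | 0 => 1
      | 1 => 2
      | 2 => 3
      | 3 => 4
      | 4 => 0
      | i + 5 => i + 5)) (hR.rn _)).congr fun M k w hw => ?_
    refine exists_congr fun y => and_congr_right fun _ => ?_
    have e : (fun i => cons y w (match i with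
      | 0 => 1
      | 1 => 2
      | 2 => 3
      | 3 => 4
      | 4 => 0
      | i + 5 => i + 5)) = cons (w 0) (cons (w 1) (cons (w 2) (cons (w 3)
        (cons y fun i => w (i + 4))))) := by
      funext i
      match i with
      | 0 => rfl
      | 1 => rfl
      | 2 => rfl
      | 3 => rfl
      | 4 => rfl
      | i + 5 => rfl
    rw [e]
  · intro ρ u h3 h4 h5 h6 G hG
    constructor
    · rintro ⟨y, hy, h7⟩
      obtain ⟨p, hp, h8⟩ := (h2 ρ (cons y u) h3 h4 (h5.cons hy) (hC ρ u y h3 h4 h5 h6 hy) G hG).1 h7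
      exact ⟨p, hp, y, hy, h8⟩
    · rintro ⟨p, hp, y, hy, h8⟩
      exact ⟨y, hy, (h2 ρ (cons y u) h3 h4 (h5.cons hy) (hC ρ u y h3 h4 h5 h6 hy) G hG).2
        ⟨p, hp, h8⟩⟩

/-- quantifier over the extension -/
theorem Cx.Dcd.exw {Z : V → (ℕ → V) → V → V → Prop} (h : D.Dcd C' X)
    (hC : ∀ ρ u y, ρ ∈ D.H → Cld D.L ρ → In D.N u → C ρ u → D.N y → C' ρ (cons y u))
    (hX : ∀ ρ u y, ρ ∈ D.H → Cld D.L ρ → In D.N u → C ρ u → D.N y → ∀ G, D.Gn ρ G →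
      (X ρ (cons y u) G ↔ Z ρ u G (val G y))) :
    D.Dcd C (fun ρ u G => ∃ y, D.W G y ∧ Z ρ u G y) := by
  refine (h.exg hC).congr (fun _ _ _ _ _ h => h) fun ρ u h3 h4 h5 h6 G hG => ?_
  constructor
  · rintro ⟨y, hy, h7⟩
    exact ⟨val G y, ⟨y, hy, rfl⟩, (hX ρ u y h3 h4 h5 h6 hy G hG).1 h7⟩
  · rintro ⟨_, ⟨y, hy, rfl⟩, h7⟩
    exact ⟨y, hy, (hX ρ u y h3 h4 h5 h6 hy G hG).2 h7⟩

/-- quantifier over the extensions of the state -/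
theorem Cx.Dcd.exx (hF : Dfn) (hB : Frc) (hD : D.Ok) (h : D.Dcd C' X)
    (hC : ∀ ρ u ρ', ρ ∈ D.H → Cld D.L ρ → In D.N u → C ρ u → ρ' ∈ D.H → Cld D.L ρ' → ρ ⊆ ρ' →
      C' ρ' (cons ρ u)) :
    D.Dcd C (fun ρ u G => ∃ ρ' G', D.Ex ρ G ρ' G' ∧ X ρ' (cons ρ u) G') := by
  obtain ⟨R, hR, h2⟩ := h
  refine ⟨fun M w => ∃ ρ' ∈ w 2, ∃ p' ∈ Pos (w 3) ρ', Cld (w 3) ρ' ∧ w 1 ⊆ ρ' ∧
    w 0 = rst (w 1) p' ∧ R M (cons p' (cons ρ' (cons (w 2) (cons (w 3)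
      (cons (w 1) fun i => w (i + 4)))))), ?_, ?_⟩
  · -- variables: `p', ρ', p, ρ, H, L, u`
    have h3 : Dfb ZFm (fun M w => Cld (w 5) (w 1) ∧ w 3 ⊆ w 1 ∧ w 2 = rst (w 3) (w 0) ∧
        R M fun i => w (match i with
          | 0 => 0
          | 1 => 1
          | 2 => 4
          | 3 => 5
          | 4 => 3
          | i + 5 => i + 6)) :=
      (Dfb.at2 (P := fun _ x y => Cld x y) hF.cld (Tm.var 5) (Tm.var 1)).and
        ((Dfb.subset (Tm.var 3) (Tm.var 1)).and ((Dfb.eq (Tm.var 2)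
          (Tm.at2 (F := fun _ x y => SE.rst x y) hF.rst (Tm.var 3) (Tm.var 0))).and (hR.rn _)))
    have h4 := Dfb.bex ktr_zfm (Tm.at2 (F := fun _ x y => Pos x y) hF.pos (Tm.var 4) (Tm.var 0)) h3
    refine (Dfb.bex ktr_zfm (Tm.var 2) h4).congr fun M k w hw => ?_
    refine exists_congr fun ρ' => and_congr_right fun _ => ?_
    refine exists_congr fun p' => and_congr_right fun _ => ?_
    have e : (fun i => cons p' (cons ρ' w) (match i with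
          | 0 => 0
          | 1 => 1
          | 2 => 4
          | 3 => 5
          | 4 => 3
          | i + 5 => i + 6)) = (cons p' (cons ρ' (cons (w 2) (cons (w 3)
      (cons (w 1) fun i => w (i + 4)))))) := by
      funext i
      match i with
      | 0 => rfl
      | 1 => rfl
      | 2 => rfl
      | 3 => rfl
      | 4 => rfl
      | i + 5 => rfl
    rw [e]
    rfl
  · intro ρ u h3 h4 h5 h6 G hG
    constructor
    · rintro ⟨ρ', G', hE, h7⟩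
      obtain ⟨p', hp', h8⟩ := (h2 ρ' (cons ρ u) hE.st.h hE.st.c (h5.cons (hD.nH h3))
        (hC ρ u ρ' h3 h4 h5 h6 hE.st.h hE.st.c hE.sub) G' hE.st.g).1 h7
      have hpP := gn_sub hE.st.g hp'
      obtain ⟨h9, h10, h11⟩ := hB.rst D.L ρ' ρ p' hE.st.c h4 hE.sub hpP
      refine ⟨SE.rst ρ p', ?_, ρ', hE.st.h, p', hpP, hE.st.c, hE.sub, rfl, h8⟩
      rw [← hE.res]
      unfold SE.gs
      rw [ZFSet.mem_sep]
      exact ⟨hE.st.g.1.up p' hp' _ (mem_Odr.2 ⟨hpP, h10, h11⟩),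
        ((hB.sub D.L ρ' ρ _ hE.st.c h4 hE.sub).1 h9).2⟩
    · rintro ⟨p, hp, ρ', hρ', p', hp', h7, h8, h9, h10⟩
      have h9' : p = SE.rst ρ p' := h9
      subst h9'
      obtain ⟨G', hE, hpG⟩ := hB.ext D hD ρ G ρ' p' ⟨h3, h4, hG⟩ hρ' h7 h8 hp' hp
      exact ⟨ρ', G', hE, (h2 ρ' (cons ρ u) hρ' h7 (h5.cons (hD.nH h3))
        (hC ρ u ρ' h3 h4 h5 h6 hρ' h7 h8) G' hE.st.g).2 ⟨p', hpG, h10⟩⟩

/-- substitution of definable functions for the parameters, and restriction of the filter to a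
closed subset -/
theorem Cx.Dcd.sub (hF : Dfn) (hB : Frc) (hD : D.Ok) (h : D.Dcd C' X)
    {s : (V → Prop) → (ℕ → V) → V} (hs : Tm ZFm s)
    {F : ℕ → (V → Prop) → (ℕ → V) → V} (hF' : ∀ i, Tm ZFm (F i))
    (hC : ∀ ρ u, ρ ∈ D.H → Cld D.L ρ → In D.N u → C ρ u →
      s D.N (D.ar ρ u) ∈ D.H ∧ Cld D.L (s D.N (D.ar ρ u)) ∧ s D.N (D.ar ρ u) ⊆ ρ ∧
      C' (s D.N (D.ar ρ u)) (fun i => F i D.N (D.ar ρ u))) :
    D.Dcd C (fun ρ u G => X (s D.N (D.ar ρ u)) (fun i => F i D.N (D.ar ρ u))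
      (gs G (s D.N (D.ar ρ u)))) := by
  obtain ⟨R, hR, h2⟩ := h
  refine ⟨fun M w => dm (w 0) ⊆ s M (fun i => w (i + 1)) ∧ R M (cons (w 0)
    (cons (s M fun i => w (i + 1)) (cons (w 2) (cons (w 3)
      fun i => F i M fun i => w (i + 1))))), ?_, ?_⟩
  · refine (Dfb.subset (Tm.dm (Tm.var 0)) (hs.rn _)).and ?_
    refine (hR.comp (fun i => match i with
      | 0 => fun _ w => w 0
      | 1 => fun M w => s M fun i => w (i + 1)
      | 2 => fun _ w => w 2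
      | 3 => fun _ w => w 3
      | i + 4 => fun M w => F i M fun i => w (i + 1)) fun i => ?_).congr fun M k w hw => ?_
    · match i with
      | 0 => exact Tm.var 0
      | 1 => exact hs.rn _
      | 2 => exact Tm.var 2
      | 3 => exact Tm.var 3
      | i + 4 => exact (hF' i).rn _
    · have e : (fun i => (match i with
      | 0 => fun _ w => w 0
      | 1 => fun M w => s M fun i => w (i + 1)
      | 2 => fun _ w => w 2
      | 3 => fun _ w => w 3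
      | i + 4 => fun M w => F i M fun i => w (i + 1) : (V → Prop) → (ℕ → V) → V) M w) = (cons (w 0)
    (cons (s M fun i => w (i + 1)) (cons (w 2) (cons (w 3)
      fun i => F i M fun i => w (i + 1))))) := by
        funext i
        match i with
        | 0 => rfl
        | 1 => rfl
        | 2 => rfl
        | 3 => rfl
        | i + 4 => rfl
      rw [e]
  · intro ρ u h3 h4 h5 h6 G hG
    obtain ⟨c1, c2, c3, c4⟩ := hC ρ u h3 h4 h5 h6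
    have hF2 : In D.N fun i => F i D.N (D.ar ρ u) := fun i =>
      (hF' i).1 D.N hD.zfm _ (hD.inar (hD.nH h3) h5)
    refine (h2 _ _ c1 c2 hF2 c4 _ (hB.res D hD ρ _ G ⟨h3, h4, hG⟩ c1 c2 c3)).trans ?_
    constructor
    · rintro ⟨p, hp, h7⟩
      unfold SE.gs at hp
      rw [ZFSet.mem_sep] at hp
      exact ⟨p, hp.1, hp.2, h7⟩
    · rintro ⟨p, hp, h7, h8⟩
      refine ⟨p, ?_, h8⟩
      unfold SE.gs
      rw [ZFSet.mem_sep]
      exact ⟨hp, h7⟩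

/-- filters: the restriction to the whole set -/
theorem gs_self {ρ G : V} (hG : G ⊆ Pos D.L ρ) : gs G ρ = G := by
  unfold SE.gs
  ext p
  rw [ZFSet.mem_sep]
  refine ⟨fun h => h.1, fun h => ⟨h, ?_⟩⟩
  have h1 := hG h
  unfold Pos at h1
  rw [ZFSet.mem_sep] at h1
  have h2 := h1.1
  unfold Fs at h2
  rw [ZFSet.mem_sep, ZFSet.mem_powerset] at h2
  intro x hx
  obtain ⟨y, hy⟩ := mem_dm.1 hx
  exact (ZFSet.pair_mem_prod.1 (h2.1 hy)).1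

/-- substitution of definable functions for the parameters -/
theorem Cx.Dcd.comp (hF : Dfn) (hB : Frc) (hD : D.Ok) (h : D.Dcd C' X)
    {F : ℕ → (V → Prop) → (ℕ → V) → V} (hF' : ∀ i, Tm ZFm (F i))
    (hC : ∀ ρ u, ρ ∈ D.H → Cld D.L ρ → In D.N u → C ρ u → C' ρ (fun i => F i D.N (D.ar ρ u))) :
    D.Dcd C (fun ρ u G => X ρ (fun i => F i D.N (D.ar ρ u)) G) := by
  refine (h.sub (C := C) hF hB hD (s := fun _ v => v 0) (Tm.var 0) hF'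
    fun ρ u h3 h4 h5 h6 => ⟨h3, h4, fun _ h => h, hC ρ u h3 h4 h5 h6⟩).congr
    (fun _ _ _ _ _ h => h) fun ρ u h3 h4 h5 h6 G hG => ?_
  show X ρ (fun i => F i D.N (D.ar ρ u)) (gs G ρ) ↔ _
  rw [gs_self hG.1.sub]

/-- for all generic filters -/
theorem Cx.Dcd.allG (hF : Dfn) (hB : Frc) (hD : D.Ok) (h : D.Dcd C X) :
    ∃ S, Dfb ZFm S ∧ ∀ ρ u, ρ ∈ D.H → Cld D.L ρ → In D.N u → C ρ u →
      ((∀ G, D.Gn ρ G → X ρ u G) ↔ S D.N (D.ar ρ u)) := by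
  obtain ⟨R, hR, h2⟩ := (h.not hF hB hD)
  refine ⟨fun M w => ∀ p ∈ Pos (w 2) (w 0), ¬ R M (cons p w), ?_, ?_⟩
  · exact Dfb.ball ktr_zfm (Tm.at2 (F := fun _ x y => Pos x y) hF.pos (Tm.var 2) (Tm.var 0)) hR.not
  · intro ρ u h3 h4 h5 h6
    constructor
    · intro h7 p hp h8
      obtain ⟨G, hG, hpG⟩ := hB.gen D hD ρ p h3 h4 hp
      exact (h2 ρ u h3 h4 h5 h6 G hG).2 ⟨p, hpG, h8⟩ (h7 G hG)
    · intro h7 G hG
      by_contra h8
      obtain ⟨p, hp, h9⟩ := (h2 ρ u h3 h4 h5 h6 G hG).1 h8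
      exact h7 p (gn_sub hG hp) h9

/-- the decision set -/
theorem Cx.Dcd.dec (hF : Dfn) (hD : D.Ok) (h : D.Dcd C X) {ρ : V} {u : ℕ → V} (h3 : ρ ∈ D.H)
    (h4 : Cld D.L ρ) (h5 : In D.N u) (h6 : C ρ u) : D.Dec ρ (X ρ u) := by
  obtain ⟨R, hR, h2⟩ := h
  refine ⟨_, hD.nsep hF hR (hD.nH h3) h5, fun G hG => ?_⟩
  rw [h2 ρ u h3 h4 h5 h6 G hG]
  refine exists_congr fun p => and_congr_right fun hp => ?_
  rw [ZFSet.mem_sep]
  exact ⟨fun h => ⟨gn_sub hG hp, h⟩, fun h => h.2⟩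

end SE
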