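import Pool.Agent.H41.SE.App

/-!
# MP_eaeaf5_lc, part W (definability): the table and the set of the legal labels
-/

set_option linter.unusedVariables false

open Ordinal Order Set
open scoped ZFSet

namespace SE

open SF

variable {D : Cx}

theorem rank_fst_le (q : V) : (fst q).rank ≤ q.rank := by
  by_cases h : ∃ a b, q = ZFSet.pair a b
  · obtain ⟨a, b, rfl⟩ := h
    rw [fst_pair]
    exact le_of_lt (rank_lt_pair_left a b)
  · rw [fst_eq_of_not h]
    simp

theorem rank_snd_le (q : V) : (snd q).rank ≤ q.rank := by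
  by_cases h : ∃ a b, q = ZFSet.pair a b
  · obtain ⟨a, b, rfl⟩ := h
    rw [snd_pair]
    exact le_of_lt (rank_lt_pair_right a b)
  · rw [snd_eq_of_not h]
    simp

theorem rank_lS_lt {k y : V} (h : y ∈ lS k) : y.rank < k.rank := by
  refine lt_of_lt_of_le (ZFSet.rank_lt_of_mem h) ?_
  unfold lS
  exact (rank_fst_le _).trans ((rank_snd_le _).trans (rank_snd_le _))

/-- recursion on the rank of a label -/
noncomputable def Fr (Φ : (V → Prop) → (ℕ → V) → V) (M : V → Prop) (w : ℕ → V) (k : V) : V :=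
  Φ M (cons (ZFSet.range fun y : {y // y ∈ lS k} => ZFSet.pair y.1 (Fr Φ M w y.1)) (cons k w))
termination_by k.rank
decreasing_by exact rank_lS_lt y.2

theorem fr_eq (Φ : (V → Prop) → (ℕ → V) → V) (M : V → Prop) (w : ℕ → V) (k : V) :
    Fr Φ M w k = Φ M (cons (resS (lS k) fun y => Fr Φ M w y) (cons k w)) := by
  rw [Fr]
  rfl

theorem tm_fr (hF : Dfn) {Φ : (V → Prop) → (ℕ → V) → V} (hΦ : Tm ZFm Φ) :
    Tm ZFm (fun M v => Fr Φ M (fun i => v (i + 1)) (v 0)) := by
  refine tm_recu (ext := fun _ v => lS (v 0)) (Φ := Φ) ZFSet.rank hF.lS hΦ ?_ ?_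
  · intro M k v hv y hy
    exact rank_lS_lt hy
  · intro M k v hv
    show Fr Φ M (fun i => v (i + 1)) (v 0) = Φ M (cons (resS (lS (v 0)) fun y =>
      Fr Φ M (fun i => v (i + 1)) y) v)
    rw [fr_eq, cons_tail]

/-- one step of the recursion for the table -/
noncomputable def Ph (R : (V → Prop) → (ℕ → V) → Prop) (M : V → Prop) (w : ℕ → V) : V :=
  (⋃₀ (imS (w 2) fun i => imS (Pos (w 3) (lS i)) fun p => ZFSet.pair i p) : ZFSet).sep fun z =>
    Lab (w 3) (fst z) ∧ Cld (w 3) (lS (fst z)) ∧ w 1 ∈ lS (fst z) ∧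
    R M (cons (snd z) (cons (lS (fst z)) (cons (w 2) (cons (w 3) (cons (w 0) (cons (w 1)
      (cons (fst z) fun _ => ∅)))))))

theorem mem_Ph {R : (V → Prop) → (ℕ → V) → Prop} {M : V → Prop} {w : ℕ → V} {i p : V} :
    ZFSet.pair i p ∈ Ph R M w ↔ i ∈ w 2 ∧ p ∈ Pos (w 3) (lS i) ∧ Lab (w 3) i ∧
      Cld (w 3) (lS i) ∧ w 1 ∈ lS i ∧ R M (cons p (cons (lS i) (cons (w 2) (cons (w 3)
        (cons (w 0) (cons (w 1) (cons i fun _ => ∅))))))) := by
  unfold Ph
  rw [ZFSet.mem_sep, ZFSet.mem_sUnion, fst_pair, snd_pair]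
  constructor
  · rintro ⟨⟨A, hA, h1⟩, h2, h3, h4, h5⟩
    obtain ⟨j, hj, rfl⟩ := mem_imS.1 hA
    obtain ⟨q, hq, h6⟩ := mem_imS.1 h1
    obtain ⟨rfl, rfl⟩ := ZFSet.pair_inj.1 h6
    exact ⟨hj, hq, h2, h3, h4, h5⟩
  · rintro ⟨hj, hq, h2, h3, h4, h5⟩
    exact ⟨⟨_, mem_imS.2 ⟨i, hj, rfl⟩, mem_imS.2 ⟨p, hq, rfl⟩⟩, h2, h3, h4, h5⟩

theorem tm_Ph (hF : Dfn) {R : (V → Prop) → (ℕ → V) → Prop} (hR : Dfb ZFm R) :
    Tm ZFm (Ph R) := by
  unfold Ph
  -- variables: `z, t, k, H, L`
  have h1 : Tm ZFm (fun _ w => (⋃₀ (imS (w 2) fun i => imS (Pos (w 3) (lS i)) fun p =>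
      ZFSet.pair i p) : ZFSet)) := by
    have h2 : Tm ZFm (fun _ w => imS (Pos (w 4) (lS (w 0))) fun p => ZFSet.pair (w 0) p) :=
      Tm.image (f := fun _ w => Pos (w 4) (lS (w 0))) (g := fun _ w => ZFSet.pair (w 1) (w 0))
        (Tm.at2 (F := fun _ x y => Pos x y) hF.pos (Tm.var 4)
          (Tm.at1 (F := fun _ x => lS x) hF.lS (Tm.var 0))) (Tm.pair (Tm.var 1) (Tm.var 0))
    exact Tm.iUn (f := fun _ w => w 2) (Tm.var 2) h2
  have hl : Tm ZFm (fun _ w => lS (fst (w 0))) :=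
    Tm.at1 (F := fun _ x => lS x) hF.lS (Tm.fst (Tm.var 0))
  have h3 : Dfb ZFm (fun M w => R M (cons (snd (w 0)) (cons (lS (fst (w 0))) (cons (w 3)
      (cons (w 4) (cons (w 1) (cons (w 2) (cons (fst (w 0)) fun _ => ∅)))))))) := by
    refine (hR.comp (fun i => match i with
      | 0 => fun _ w => snd (w 0)
      | 1 => fun _ w => lS (fst (w 0))
      | 2 => fun _ w => w 3
      | 3 => fun _ w => w 4
      | 4 => fun _ w => w 1
      | 5 => fun _ w => w 2
      | 6 => fun _ w => fst (w 0)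
      | _ + 7 => fun _ _ => ∅) fun i => ?_).congr fun M k w hw => ?_
    · match i with
      | 0 => exact Tm.snd (Tm.var 0)
      | 1 => exact hl
      | 2 => exact Tm.var 3
      | 3 => exact Tm.var 4
      | 4 => exact Tm.var 1
      | 5 => exact Tm.var 2
      | 6 => exact Tm.fst (Tm.var 0)
      | _ + 7 => exact Tm.empty
    · have e : (fun i => (match i with
      | 0 => fun _ w => snd (w 0)
      | 1 => fun _ w => lS (fst (w 0))
      | 2 => fun _ w => w 3
      | 3 => fun _ w => w 4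
      | 4 => fun _ w => w 1
      | 5 => fun _ w => w 2
      | 6 => fun _ w => fst (w 0)
      | _ + 7 => fun _ _ => ∅ : (V → Prop) → (ℕ → V) → V) M w) = (cons (snd (w 0))
        (cons (lS (fst (w 0))) (cons (w 3)
      (cons (w 4) (cons (w 1) (cons (w 2) (cons (fst (w 0)) fun _ => ∅))))))) := by
        funext i
        match i with
        | 0 => rfl
        | 1 => rfl
        | 2 => rfl
        | 3 => rfl
        | 4 => rfl
        | 5 => rfl
        | 6 => rfl
        | _ + 7 => rfl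
      rw [e]
  exact Tm.sep (R := fun M w => Lab (w 4) (fst (w 0)) ∧ Cld (w 4) (lS (fst (w 0))) ∧
    w 2 ∈ lS (fst (w 0)) ∧ R M (cons (snd (w 0)) (cons (lS (fst (w 0))) (cons (w 3)
      (cons (w 4) (cons (w 1) (cons (w 2) (cons (fst (w 0)) fun _ => ∅))))))))
    ((Dfb.at2 (P := fun _ x y => Lab x y) hF.lab (Tm.var 4) (Tm.fst (Tm.var 0))).and
      ((Dfb.at2 (P := fun _ x y => Cld x y) hF.cld (Tm.var 4) hl).and
        ((Dfb.mem (Tm.var 2) hl).and h3))) h1

/-- the table -/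
noncomputable def Cx.tbl (D : Cx) (R : (V → Prop) → (ℕ → V) → Prop) (k : V) : V :=
  Fr (Ph R) D.N (cons D.H (cons D.L fun _ => D.L)) k

theorem Cx.Ok.wT (hD : D.Ok) (T : V → V) : ({D with T := T} : Cx).Ok :=
  ⟨hD.zfc, hD.ctb, hD.hN, hD.zfH, hD.reg, hD.lH, hD.lR, hD.lU, hD.lZ⟩

/-- the table exists -/
theorem tab_ex (hF : Dfn) (hB : Frc) (hDS : CAA.T_DS) (hD : D.Ok) :
    ∃ R : (V → Prop) → (ℕ → V) → Prop, Dfb ZFm R ∧ ({D with T := D.tbl R} : Cx).Tab := by
  obtain ⟨R, hR, h2⟩ := dcd_ob hF hB hDS hD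
  refine ⟨R, hR, ?_, ?_, ?_⟩
  · intro s hs
    have h := (Tm.resS (f := fun _ v => v 0) (g := fun M v => Fr (Ph R) M (fun i => v (i + 2))
      (v 0)) (Tm.var 0) (((tm_fr hF (tm_Ph hF hR)).rn (fun i => match i with
        | 0 => 0
        | i + 1 => i + 2)).congr fun M k v hv => rfl)).1 D.N hD.zfm
      (cons s (cons D.H (cons D.L fun _ => D.L)))
      (In.cons (In.cons (In.cons (fun _ => hD.nL) hD.nL) hD.hN) (hD.nH hs))
    exact h
  · intro k i p h
    have h' : ZFSet.pair i p ∈ D.tbl R k := h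
    unfold Cx.tbl at h'
    rw [fr_eq] at h'
    exact (mem_Ph.1 h').2.1
  · intro k i G hi hl hc hk hG
    -- the table on the support of `k`
    have ht : D.N (resS (lS k) (D.tbl R)) := by
      have h := (Tm.resS (f := fun _ v => lS (v 0)) (g := fun M v => Fr (Ph R) M
        (fun i => v (i + 2)) (v 0)) hF.lS (((tm_fr hF (tm_Ph hF hR)).rn (fun i => match i with
          | 0 => 0
          | i + 1 => i + 2)).congr fun M k v hv => rfl)).1 D.N hD.zfm
        (cons k (cons D.H (cons D.L fun _ => D.L)))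
        (In.cons (In.cons (In.cons (fun _ => hD.nL) hD.nL) hD.hN)
          (hD.zfm.trans _ (hD.nH (hF.lS.1 _ hD.zfH (fun _ => i) fun _ => hi)) k hk))
      exact h
    have hlS : lS i ∈ D.H := hF.lS.1 _ hD.zfH (fun _ => i) fun _ => hi
    have hkN : D.N k := hD.zfm.trans _ (hD.nH hlS) k hk
    have h3 := h2 (lS i) (cons (resS (lS k) (D.tbl R)) (cons k (cons i fun _ => ∅))) hlS hc
      (In.cons (In.cons (In.cons (fun _ => hD.zfm.mempty) (hD.nH hi)) hkN) ht) ⟨rfl, hk⟩ G hG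
    have h4 : (D.tb (resS (lS k) (D.tbl R))).Ob k i G ↔
        ({D with T := D.tbl R} : Cx).Ob k i G :=
      ob_congr (D := D.tb (resS (lS k) (D.tbl R))) (D' := ({D with T := D.tbl R} : Cx))
        rfl rfl rfl fun j hj => app_resS hj
    rw [← h4]
    refine Iff.trans ?_ h3.symm
    refine exists_congr fun p => and_congr_right fun hp => ?_
    show ZFSet.pair i p ∈ D.tbl R k ↔ _
    unfold Cx.tbl
    rw [fr_eq, mem_Ph]
    exact ⟨fun h => h.2.2.2.2.2, fun h => ⟨hi, gn_sub (D := D) hG hp, hl, hc, hk, h⟩⟩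

/-- the set of the legal labels is in the ground model -/
theorem lam_mem (hF : Dfn) (hB : Frc) (hDS : CAA.T_DS) (hD : D.Ok)
    {R : (V → Prop) → (ℕ → V) → Prop} (hR : Dfb ZFm R) :
    D.N ({D with T := D.tbl R} : Cx).Lam := by
  -- no conflict with the promises
  obtain ⟨S1, hS1, h1⟩ := (dcd_base (C := fun _ _ => True) hF hB hDS hD
    (S := fun _ v => ¬ Pro (v 1) (v 0) (ev (v 0) (lY (v 4))))
    (Dfb.at3 (P := fun _ x y z => Pro x y z) hF.pro (Tm.var 1) (Tm.var 0)
      (Tm.at2 (F := fun _ x y => ev x y) hF.ev (Tm.var 0)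
        (Tm.at1 (F := fun _ x => lY x) hF.lY (Tm.var 4)))).not).allG hF hB hD
  obtain ⟨S2, hS2, h2⟩ := (dcd_ob hF hB hDS hD).allG hF hB hD
  have hfr : Tm ZFm (fun M v => Fr (Ph R) M (fun i => v (i + 1)) (v 0)) :=
    tm_fr hF (tm_Ph hF hR)
  -- the relation `Leg`; variables `i, H, L`
  have hl : ∀ n, Tm ZFm (fun _ w => lS (w n)) := fun n =>
    Tm.at1 (F := fun _ x => lS x) hF.lS (Tm.var n)
  have hA : Dfb ZFm (fun M w => S1 M (cons (lS (w 0)) (cons (w 1) (cons (w 2) fun _ => w 0)))) := by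
    refine (hS1.comp (fun i => match i with
      | 0 => fun _ w => lS (w 0)
      | 1 => fun _ w => w 1
      | 2 => fun _ w => w 2
      | _ + 3 => fun _ w => w 0) fun i => ?_).congr fun M k w hw => ?_
    · match i with
      | 0 => exact hl 0
      | 1 => exact Tm.var 1
      | 2 => exact Tm.var 2
      | _ + 3 => exact Tm.var 0
    · have e : (fun i => (match i with
      | 0 => fun _ w => lS (w 0)
      | 1 => fun _ w => w 1
      | 2 => fun _ w => w 2
      | _ + 3 => fun _ w => w 0 : (V → Prop) → (ℕ → V) → V) M w) =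
        (cons (lS (w 0)) (cons (w 1) (cons (w 2) fun _ => w 0))) := by
        funext i
        match i with
        | 0 => rfl
        | 1 => rfl
        | 2 => rfl
        | _ + 3 => rfl
      rw [e]
  -- variables `k, i, H, L`
  have hT : Tm ZFm (fun M w => resS (lS (w 0)) fun y =>
      Fr (Ph R) M (cons (w 2) (cons (w 3) fun _ => w 3)) y) := by
    refine Tm.resS (g := fun M w => Fr (Ph R) M (cons (w 3) (cons (w 4) fun _ => w 4)) (w 0))
      (hl 0) ?_
    refine (hfr.comp (fun i => match i with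
      | 0 => fun _ w => w 0
      | 1 => fun _ w => w 3
      | _ + 2 => fun _ w => w 4) fun i => ?_).congr fun M k w hw => ?_
    · match i with
      | 0 => exact Tm.var 0
      | 1 => exact Tm.var 3
      | _ + 2 => exact Tm.var 4
    · show Fr (Ph R) M _ (w 0) = Fr (Ph R) M _ (w 0)
      congr 1
      funext i
      match i with
      | 0 => rfl
      | 1 => rfl
      | _ + 2 => rfl
  have hB2 : Dfb ZFm (fun M w => S2 M (cons (lS (w 1)) (cons (w 2) (cons (w 3)
      (cons (resS (lS (w 0)) fun y => Fr (Ph R) M (cons (w 2) (cons (w 3) fun _ => w 3)) y)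
        (cons (w 0) fun _ => w 1)))))) := by
    refine (hS2.comp (fun i => match i with
      | 0 => fun _ w => lS (w 1)
      | 1 => fun _ w => w 2
      | 2 => fun _ w => w 3
      | 3 => fun M w => resS (lS (w 0)) fun y =>
          Fr (Ph R) M (cons (w 2) (cons (w 3) fun _ => w 3)) y
      | 4 => fun _ w => w 0
      | _ + 5 => fun _ w => w 1) fun i => ?_).congr fun M k w hw => ?_
    · match i with
      | 0 => exact hl 1
      | 1 => exact Tm.var 2
      | 2 => exact Tm.var 3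
      | 3 => exact hT
      | 4 => exact Tm.var 0
      | _ + 5 => exact Tm.var 1
    · have e : (fun i => (match i with
      | 0 => fun _ w => lS (w 1)
      | 1 => fun _ w => w 2
      | 2 => fun _ w => w 3
      | 3 => fun M w => resS (lS (w 0)) fun y =>
          Fr (Ph R) M (cons (w 2) (cons (w 3) fun _ => w 3)) y
      | 4 => fun _ w => w 0
      | _ + 5 => fun _ w => w 1 : (V → Prop) → (ℕ → V) → V) M w) =
        (cons (lS (w 1)) (cons (w 2) (cons (w 3)
      (cons (resS (lS (w 0)) fun y => Fr (Ph R) M (cons (w 2) (cons (w 3) fun _ => w 3)) y)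
        (cons (w 0) fun _ => w 1))))) := by
        funext i
        match i with
        | 0 => rfl
        | 1 => rfl
        | 2 => rfl
        | 3 => rfl
        | 4 => rfl
        | _ + 5 => rfl
      rw [e]
  have hB3 : Dfb ZFm (fun M w => ∀ k ∈ lS (w 0), S2 M (cons (lS (w 0)) (cons (w 1) (cons (w 2)
      (cons (resS (lS k) fun y => Fr (Ph R) M (cons (w 1) (cons (w 2) fun _ => w 2)) y)
        (cons k fun _ => w 0)))))) :=
    (Dfb.ball ktr_zfm (hl 0) hB2).congr fun M k w hw => Iff.rfl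
  have hL : Dfb ZFm (fun M w => Lab (w 2) (w 0) ∧ Cld (w 2) (lS (w 0)) ∧
      S1 M (cons (lS (w 0)) (cons (w 1) (cons (w 2) fun _ => w 0))) ∧
      ∀ k ∈ lS (w 0), S2 M (cons (lS (w 0)) (cons (w 1) (cons (w 2)
      (cons (resS (lS k) fun y => Fr (Ph R) M (cons (w 1) (cons (w 2) fun _ => w 2)) y)
        (cons k fun _ => w 0)))))) :=
    (Dfb.at2 (P := fun _ x y => Lab x y) hF.lab (Tm.var 2) (Tm.var 0)).and
      ((Dfb.at2 (P := fun _ x y => Cld x y) hF.cld (Tm.var 2) (hl 0)).and (hA.and hB3))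
  have key : ∀ i ∈ D.H, (({D with T := D.tbl R} : Cx).Leg i ↔
      (Lab D.L i ∧ Cld D.L (lS i) ∧
      S1 D.N (cons (lS i) (cons D.H (cons D.L fun _ => i))) ∧
      ∀ k ∈ lS i, S2 D.N (cons (lS i) (cons D.H (cons D.L
      (cons (resS (lS k) fun y => Fr (Ph R) D.N (cons D.H (cons D.L fun _ => D.L)) y)
        (cons k fun _ => i))))))) := by
    intro i hi
    have hlS : lS i ∈ D.H := hF.lS.1 _ hD.zfH (fun _ => i) fun _ => hi
    have e1 : Cld D.L (lS i) → ((∀ G, D.Gn (lS i) G → ¬ Pro (lS i) G (ev G (lY i))) ↔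
        S1 D.N (cons (lS i) (cons D.H (cons D.L fun _ => i)))) := fun hc =>
      h1 (lS i) (fun _ => i) hlS hc (fun _ => hD.nH hi) trivial
    have e2 : Cld D.L (lS i) → ∀ k ∈ lS i, ((∀ G, D.Gn (lS i) G →
        ({D with T := D.tbl R} : Cx).Ob k i G) ↔
        S2 D.N (cons (lS i) (cons D.H (cons D.L
      (cons (resS (lS k) fun y => Fr (Ph R) D.N (cons D.H (cons D.L fun _ => D.L)) y)
        (cons k fun _ => i)))))) := by
      intro hc k hk
      have hkN : D.N k := hD.zfm.trans _ (hD.nH hlS) k hk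
      have ht : D.N (resS (lS k) (D.tbl R)) :=
        hT.1 D.N hD.zfm (cons k (cons i (cons D.H (cons D.L fun _ => D.L))))
          (In.cons (In.cons (In.cons (In.cons (fun _ => hD.nL) hD.nL) hD.hN) (hD.nH hi)) hkN)
      have h4 : ∀ G, (D.tb (resS (lS k) (D.tbl R))).Ob k i G ↔
          ({D with T := D.tbl R} : Cx).Ob k i G := fun G =>
        ob_congr (D := D.tb (resS (lS k) (D.tbl R))) (D' := ({D with T := D.tbl R} : Cx))
          rfl rfl rfl fun j hj => app_resS hj
      have h5 := h2 (lS i) (cons (resS (lS k) (D.tbl R)) (cons k fun _ => i)) hlS hc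
        (In.cons (In.cons (fun _ => hD.nH hi) hkN) ht) ⟨rfl, hk⟩
      refine Iff.trans ?_ h5
      exact forall_congr' fun G => imp_congr_right fun _ => (h4 G).symm
    constructor
    · rintro ⟨a, b, c, d, e⟩
      exact ⟨b, c, (e1 c).1 d, fun k hk => (e2 c k hk).1 fun G hG => e G hG k hk⟩
    · rintro ⟨b, c, d, e⟩
      exact ⟨hi, b, c, (e1 c).2 d, fun G hG k hk => (e2 c k hk).2 (e k hk) G hG⟩
  -- `Lam`
  have hLj : Dfb ZFm (fun M w => ∀ j ∈ lS (w 0), (Lab (w 2) j ∧ Cld (w 2) (lS j) ∧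
      S1 M (cons (lS j) (cons (w 1) (cons (w 2) fun _ => j))) ∧
      ∀ k ∈ lS j, S2 M (cons (lS j) (cons (w 1) (cons (w 2)
      (cons (resS (lS k) fun y => Fr (Ph R) M (cons (w 1) (cons (w 2) fun _ => w 2)) y)
        (cons k fun _ => j))))))) :=
    (Dfb.ball ktr_zfm (hl 0) (hL.rn fun i => match i with
      | 0 => 0
      | i + 1 => i + 2)).congr fun M k w hw => Iff.rfl
  have h9 := (Tm.sep (f := fun _ w => w 0) ((hL.and hLj).congr (R' := fun M w => _)
    fun M k w hw => Iff.rfl) (Tm.var 0)).1 D.N hD.zfm (cons D.H (cons D.L fun _ => D.L))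
    (In.cons (In.cons (fun _ => hD.nL) hD.nL) hD.hN)
  convert h9 using 1
  unfold Cx.Lam
  ext i
  rw [ZFSet.mem_sep, ZFSet.mem_sep]
  refine and_congr_right fun hi => ?_
  refine and_congr (key i hi) (forall_congr' fun j => imp_congr_right fun hj => key j ?_)
  exact hD.zfH.trans _ (hF.lS.1 _ hD.zfH (fun _ => i) fun _ => hi) j hj

/-- the main theorem of part W -/
theorem exT (hF : Dfn) (hB : Frc) (hDS : CAA.T_DS) (hD : D.Ok) :
    ∃ T : V → V, ({D with T := T} : Cx).Tab ∧ D.N ({D with T := T} : Cx).Lam := by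
  obtain ⟨R, hR, h⟩ := tab_ex hF hB hDS hD
  exact ⟨D.tbl R, h, lam_mem hF hB hDS hD hR⟩

end SE
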